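import Pool.Agent.Lib.MP_994fee_co.TwB.Defs19

/-!
# A vector of a box that no coordinate guesses
-/

namespace Pool.Agent.Lib.MP_994fee_co.TwB

open Finset

theorem box_count {n : ℕ} {α : Type} [DecidableEq α] (W : Fin n → Finset α) (L s : ℕ)
    (hW : ∀ k, (W k).card = L) (hs : n * s < L) (G : (Fin n → α) → Fin n → Finset α)
    (hG : ∀ x k, (G x k).card ≤ s)
    (hloc : ∀ x x' k, (∀ j, j ≠ k → x j = x' j) → G x k = G x' k) :
    ∃ x : Fin n → α, (∀ k, x k ∈ W k) ∧ ∀ k, x k ∉ G x k := by
  classical
  by_contra hcon
  push Not at hcon
  have hP : (Fintype.piFinset W).card = L ^ n := by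
    rw [Fintype.card_piFinset]
    simp only [hW, prod_const, card_univ, Fintype.card_fin]
  let E : Fin n → Finset (Fin n → α) := fun k => (Fintype.piFinset W).filter (fun x => x k ∈ G x k)
  have hE : ∀ k, (E k).card * L ≤ s * L ^ n := by
    intro k
    have h1 : ((E k) ×ˢ (W k)).card ≤ s * (Fintype.piFinset W).card := by
      refine Finset.card_le_mul_card_image_of_maps_to
        (f := fun q : (Fin n → α) × α => Function.update q.1 k q.2) ?_ s ?_
      · rintro ⟨x, w⟩ hq
        obtain ⟨h2, h3⟩ := mem_product.1 hq
        have h4 := Fintype.mem_piFinset.1 (mem_filter.1 h2).1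
        rw [Fintype.mem_piFinset]
        intro j
        by_cases hj : j = k
        · subst hj
          simp only [Function.update_self]
          exact h3
        · simp only [Function.update_of_ne hj]
          exact h4 j
      · intro y _
        refine le_trans ?_ (hG y k)
        have key : ∀ q ∈ ((E k) ×ˢ (W k)).filter
            (fun q : (Fin n → α) × α => Function.update q.1 k q.2 = y), G q.1 k = G y k := by
          intro q hq
          apply hloc
          intro j hj
          rw [← (mem_filter.1 hq).2, Function.update_of_ne hj]
        refine Finset.card_le_card_of_injOn (fun q : (Fin n → α) × α => q.1 k) ?_ ?_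
        · intro q hq
          have hq' := Finset.mem_coe.1 hq
          have h2 := (mem_product.1 (mem_filter.1 hq').1).1
          have h3 := (mem_filter.1 h2).2
          rw [key q hq'] at h3
          exact h3
        · intro q hq q' hq' hqq
          have e1 := (mem_filter.1 (Finset.mem_coe.1 hq)).2
          have e2 := (mem_filter.1 (Finset.mem_coe.1 hq')).2
          refine Prod.ext ?_ ?_
          · funext j
            by_cases hj : j = k
            · subst hj
              exact hqq
            · have e3 := congrFun (e1.trans e2.symm) j
              rw [Function.update_of_ne hj, Function.update_of_ne hj] at e3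
              exact e3
          · have e3 := congrFun (e1.trans e2.symm) k
            rw [Function.update_self, Function.update_self] at e3
            exact e3
    rw [card_product, hW k, hP] at h1
    exact h1
  have h2 : Fintype.piFinset W ⊆ univ.biUnion E := by
    intro x hx
    obtain ⟨k, hk⟩ := hcon x (Fintype.mem_piFinset.1 hx)
    exact mem_biUnion.2 ⟨k, mem_univ k, mem_filter.2 ⟨hx, hk⟩⟩
  have h3 : L ^ n * L ≤ n * s * L ^ n := by
    calc L ^ n * L = (Fintype.piFinset W).card * L := by rw [hP]
      _ ≤ (∑ k : Fin n, (E k).card) * L :=
        Nat.mul_le_mul_right _ (le_trans (card_le_card h2) card_biUnion_le)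
      _ = ∑ k : Fin n, (E k).card * L := Finset.sum_mul _ _ _
      _ ≤ ∑ _k : Fin n, s * L ^ n := Finset.sum_le_sum (fun k _ => hE k)
      _ = n * s * L ^ n := by
        rw [sum_const, smul_eq_mul, card_univ, Fintype.card_fin]
        ring
  have hL : 0 < L ^ n := Nat.pow_pos (by omega)
  have h4 : n * s * L ^ n < L * L ^ n := Nat.mul_lt_mul_of_pos_right hs hL
  rw [mul_comm L] at h4
  omega

end Pool.Agent.Lib.MP_994fee_co.TwB
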