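import Mathlib

/-!
# Boxes and positions
-/

namespace Pool.Agent.Lib.MP_994fee_co.TwB

/-- `F` contains a box with sides of `L` elements. -/
def HasBox {ι α : Type} (L : ℕ) (F : (ι → α) → Prop) : Prop :=
  ∃ W : ι → Finset α, (∀ k, (W k).card = L) ∧ ∀ x : ι → α, (∀ k, x k ∈ W k) → F x

/-- the positions of coordinate `k` -/
def pos (M k r : ℕ) : ℕ := k * (4 * M + 4) + r

end Pool.Agent.Lib.MP_994fee_co.TwB
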