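import Mathlib
import Pool.Agent.Lib.MP_994fee_co.TwB.Defs19

/-!
# Row D: box-free sets have polynomially small density
-/

namespace Pool.Agent.Lib.MP_994fee_co.TwB

open Finset

/-- One choice step: many pairs give a popular second coordinate outside `W`. -/
theorem step75 {α : Type} [DecidableEq α] {M Z L : ℕ} (hM : 0 < M) (R : α → Fin M → Prop)
    [∀ x, DecidablePred (R x)] (Y : Finset α) (W : Finset (Fin M)) (hW : W.card ≤ L)
    (hY : ∀ x ∈ Y, M + L * Z ≤ (univ.filter (fun w => R x w)).card * Z) :
    Y = ∅ ∨ ∃ w, w ∉ W ∧ Y.card ≤ (Y.filter (fun x => R x w)).card * Z := by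
  classical
  rcases Y.eq_empty_or_nonempty with h0 | h0
  · exact Or.inl h0
  right
  by_contra hcon
  push Not at hcon
  -- double counting
  have h1 : ∑ w ∈ univ \ W, (Y.filter (fun x => R x w)).card =
      ∑ x ∈ Y, ((univ \ W).filter (fun w => R x w)).card := by
    simp only [Finset.card_filter]
    exact Finset.sum_comm
  have h2 : (∑ w ∈ univ \ W, (Y.filter (fun x => R x w)).card) * Z + (univ \ W).card ≤
      (univ \ W).card * Y.card := by
    rw [Finset.sum_mul, Finset.card_eq_sum_ones (univ \ W), ← Finset.sum_add_distrib,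
      Finset.sum_mul]
    apply Finset.sum_le_sum
    intro w hw
    have h3 := hcon w (by
      have := (Finset.mem_sdiff.1 hw).2
      exact this)
    omega
  have h4 : ∀ x ∈ Y, M ≤ ((univ \ W).filter (fun w => R x w)).card * Z := by
    intro x hx
    have h5 : (univ.filter (fun w => R x w)).card ≤
        ((univ \ W).filter (fun w => R x w)).card + L := by
      have h6 : univ.filter (fun w => R x w) ⊆ (univ \ W).filter (fun w => R x w) ∪ W := by
        intro w hw
        by_cases hwW : w ∈ W
        · exact Finset.mem_union_right _ hwW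
        · exact Finset.mem_union_left _ (Finset.mem_filter.2
            ⟨Finset.mem_sdiff.2 ⟨Finset.mem_univ _, hwW⟩, (Finset.mem_filter.1 hw).2⟩)
      calc _ ≤ ((univ \ W).filter (fun w => R x w) ∪ W).card := Finset.card_le_card h6
        _ ≤ ((univ \ W).filter (fun w => R x w)).card + W.card := Finset.card_union_le _ _
        _ ≤ _ := by omega
    have h7 := hY x hx
    have h8 := Nat.mul_le_mul_right Z h5
    rw [add_mul] at h8
    omega
  have h9 : M * Y.card ≤ (∑ x ∈ Y, ((univ \ W).filter (fun w => R x w)).card) * Z := by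
    rw [Finset.sum_mul, mul_comm, ← smul_eq_mul, ← Finset.sum_const]
    exact Finset.sum_le_sum h4
  rw [← h1] at h9
  have h10 : (univ \ W).card ≤ M := by
    have := Finset.card_le_univ (univ \ W)
    rwa [Fintype.card_fin] at this
  have h11 : (univ \ W).card * Y.card ≤ M * Y.card := Nat.mul_le_mul_right _ h10
  have h12 : (univ \ W).card = 0 := by omega
  have h13 : ∑ w ∈ univ \ W, (Y.filter (fun x => R x w)).card = 0 := by
    rw [Finset.card_eq_zero.1 h12]
    rfl
  rw [h13, zero_mul] at h9
  have h14 : 0 < M * Y.card := Nat.mul_pos hM (Finset.card_pos.2 h0)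
  omega

/-- `j` choice steps. -/
theorem steps75 {α : Type} [DecidableEq α] {M Z L : ℕ} (hM : 0 < M) (R : α → Fin M → Prop)
    [∀ x, DecidablePred (R x)] (Y : Finset α) (hY0 : Y.Nonempty) (hZ : 0 < Z)
    (hY : ∀ x ∈ Y, M + L * Z ≤ (univ.filter (fun w => R x w)).card * Z) (j : ℕ) (hj : j ≤ L) :
    ∃ (W : Finset (Fin M)) (Y' : Finset α), W.card = j ∧ Y' ⊆ Y ∧ Y.card ≤ Y'.card * Z ^ j ∧
      ∀ x ∈ Y', ∀ w ∈ W, R x w := by
  classical
  induction j with
  | zero =>
    exact ⟨∅, Y, rfl, Finset.Subset.refl _, by simp, by simp⟩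
  | succ j ih =>
    obtain ⟨W, Y', h1, h2, h3, h4⟩ := ih (by omega)
    rcases step75 hM R Y' W (L := L) (Z := Z) (by omega) (fun x hx => hY x (h2 hx)) with h5 | h5
    · exfalso
      rw [h5, Finset.card_empty, zero_mul] at h3
      have h6 := Finset.card_pos.2 hY0
      omega
    · obtain ⟨w, hw, h6⟩ := h5
      refine ⟨insert w W, Y'.filter (fun x => R x w), ?_, ?_, ?_, ?_⟩
      · rw [Finset.card_insert_of_notMem hw, h1]
      · exact (Finset.filter_subset _ _).trans h2
      · calc Y.card ≤ Y'.card * Z ^ j := h3
          _ ≤ ((Y'.filter (fun x => R x w)).card * Z) * Z ^ j := Nat.mul_le_mul_right _ h6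
          _ = (Y'.filter (fun x => R x w)).card * Z ^ (j + 1) := by ring
      · intro x hx v hv
        rcases Finset.mem_insert.1 hv with rfl | hv
        · exact (Finset.mem_filter.1 hx).2
        · exact h4 x (Finset.mem_filter.1 hx).1 v hv

theorem card_fibres75 {M n : ℕ} (F : Finset (Fin (n + 1) → Fin M)) :
    F.card = ∑ x : Fin n → Fin M, (univ.filter (fun w : Fin M => Fin.cons w x ∈ F)).card := by
  classical
  have h1 : F.card = ∑ y : Fin (n + 1) → Fin M, if y ∈ F then 1 else 0 := by
    rw [← Finset.card_filter]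
    congr 1
    ext y
    simp
  rw [h1]
  simp only [Finset.card_filter]
  rw [← (Fin.consEquiv (fun _ => Fin M)).sum_comp, Fintype.sum_prod_type, Finset.sum_comm]
  rfl

theorem box_density (L n : ℕ) : ∃ e c C : ℕ, 0 < c ∧ ∀ M Z : ℕ, 0 < Z → c * Z ^ e ≤ M →
    ∀ F : Finset (Fin n → Fin M), ¬ HasBox L (fun x => x ∈ F) → F.card * Z ≤ C * M ^ n := by
  classical
  induction n with
  | zero =>
    refine ⟨0, 1, 0, Nat.one_pos, ?_⟩
    intro M Z _ _ F hF
    rcases F.eq_empty_or_nonempty with h0 | ⟨x, hx⟩
    · rw [h0]
      simp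
    · exfalso
      apply hF
      refine ⟨fun k => k.elim0, fun k => k.elim0, ?_⟩
      intro y _
      have : y = x := Subsingleton.elim _ _
      rw [this]
      exact hx
  | succ n ih =>
    obtain ⟨e, c, C, hc, h⟩ := ih
    refine ⟨e * (L + 1) + 1, (C + 1) ^ e * c + 1, L + 2, Nat.succ_pos _, ?_⟩
    intro M Z hZ hM F hF
    have hZM : Z ≤ M := by
      calc Z = Z ^ 1 := (pow_one Z).symm
        _ ≤ Z ^ (e * (L + 1) + 1) := Nat.pow_le_pow_right hZ (by omega)
        _ ≤ ((C + 1) ^ e * c + 1) * Z ^ (e * (L + 1) + 1) := Nat.le_mul_of_pos_left _ (Nat.succ_pos _)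
        _ ≤ M := hM
    have hM0 : 0 < M := lt_of_lt_of_le hZ hZM
    have hcM : c * ((C + 1) * Z ^ (L + 1)) ^ e ≤ M := by
      calc c * ((C + 1) * Z ^ (L + 1)) ^ e = ((C + 1) ^ e * c) * Z ^ (e * (L + 1)) := by
            rw [mul_pow, ← pow_mul, Nat.mul_comm (L + 1) e]
            ring
        _ ≤ ((C + 1) ^ e * c + 1) * Z ^ (e * (L + 1) + 1) :=
            Nat.mul_le_mul (Nat.le_succ _) (Nat.pow_le_pow_right hZ (Nat.le_succ _))
        _ ≤ M := hM
    let R : (Fin n → Fin M) → Fin M → Prop := fun x w => Fin.cons w x ∈ F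
    let H : Finset (Fin n → Fin M) :=
      univ.filter (fun x => M + L * Z ≤ (univ.filter (fun w => R x w)).card * Z)
    by_cases hH : H.card * Z ≤ M ^ n
    · -- few heavy points
      have h1 : F.card * Z ≤ ∑ x : Fin n → Fin M, ((M + L * Z) + if x ∈ H then M * Z else 0) := by
        rw [card_fibres75, Finset.sum_mul]
        apply Finset.sum_le_sum
        intro x _
        have h2 : (univ.filter (fun w : Fin M => Fin.cons w x ∈ F)).card ≤ M := by
          have := Finset.card_le_univ (univ.filter (fun w : Fin M => (Fin.cons w x : Fin (n + 1) → Fin M) ∈ F))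
          rwa [Fintype.card_fin] at this
        by_cases hx : x ∈ H
        · rw [if_pos hx]
          have := Nat.mul_le_mul_right Z h2
          omega
        · rw [if_neg hx]
          have h3 : ¬ (M + L * Z ≤ (univ.filter (fun w => R x w)).card * Z) := by
            intro h4
            exact hx (Finset.mem_filter.2 ⟨Finset.mem_univ _, h4⟩)
          have h5 : (univ.filter (fun w => R x w)).card * Z ≤ M + L * Z := by omega
          simpa using h5
      have h6 : ∑ x : Fin n → Fin M, ((M + L * Z) + if x ∈ H then M * Z else 0) =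
          M ^ n * (M + L * Z) + H.card * (M * Z) := by
        rw [Finset.sum_add_distrib, Finset.sum_const, Finset.card_univ]
        congr 1
        · simp
        · rw [← Finset.sum_filter]
          simp
      calc F.card * Z ≤ M ^ n * (M + L * Z) + H.card * (M * Z) := by rw [← h6]; exact h1
        _ = M ^ n * (M + L * Z) + (H.card * Z) * M := by ring
        _ ≤ M ^ n * (M + L * M) + M ^ n * M := by
            apply Nat.add_le_add
            · exact Nat.mul_le_mul_left _ (Nat.add_le_add_left (Nat.mul_le_mul_left _ hZM) _)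
            · exact Nat.mul_le_mul_right _ hH
        _ = (L + 2) * M ^ (n + 1) := by ring
    · -- many heavy points
      exfalso
      push Not at hH
      have hH0 : H.Nonempty := by
        rw [← Finset.card_pos]
        by_contra h0
        have h1 : H.card = 0 := by omega
        rw [h1, zero_mul] at hH
        omega
      obtain ⟨W, Y, h1, h2, h3, h4⟩ := steps75 hM0 R H hH0 hZ
        (fun x hx => (Finset.mem_filter.1 hx).2) L le_rfl
      have h5 : ¬ HasBox L (fun x => x ∈ Y) := by
        rintro ⟨V, hV, hV'⟩
        apply hF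
        refine ⟨Fin.cons W V, ?_, ?_⟩
        · intro k
          refine Fin.cases ?_ ?_ k
          · simpa using h1
          · intro k
            simpa using hV k
        · intro x hx
          have h6 : R (fun k => x k.succ) (x 0) := by
            apply h4
            · apply hV'
              intro k
              have := hx k.succ
              simpa using this
            · have := hx 0
              simpa using this
          have h7 : (Fin.cons (x 0) (fun k => x k.succ) : Fin (n + 1) → Fin M) = x :=
            Fin.cons_self_tail x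
          have h8 : (Fin.cons (x 0) (fun k => x k.succ) : Fin (n + 1) → Fin M) ∈ F := h6
          rw [h7] at h8
          exact h8
      have h6 := h M ((C + 1) * Z ^ (L + 1)) (by positivity) hcM Y h5
      have h7 : M ^ n < Y.card * Z ^ (L + 1) := by
        calc M ^ n < H.card * Z := hH
          _ ≤ (Y.card * Z ^ L) * Z := Nat.mul_le_mul_right _ h3
          _ = Y.card * Z ^ (L + 1) := by ring
      have h8 : (C + 1) * M ^ n < (C + 1) * (Y.card * Z ^ (L + 1)) :=
        Nat.mul_lt_mul_of_pos_left h7 (Nat.succ_pos _)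
      have h9 : (C + 1) * (Y.card * Z ^ (L + 1)) = Y.card * ((C + 1) * Z ^ (L + 1)) := by ring
      have h10 : C * M ^ n ≤ (C + 1) * M ^ n := Nat.mul_le_mul_right _ (Nat.le_succ _)
      omega

end Pool.Agent.Lib.MP_994fee_co.TwB
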