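import Pool.Agent.Lib.MP_994fee_co.TwB.Fin19

/-!
# The extension lemma for boxes, with label blocks that are boxes of colours
-/

namespace Pool.Agent.Lib.MP_994fee_co.TwB

open Finset

theorem exists_codeB {α : Type} [Nonempty α] {K : ℕ} (hs : 0 < K) (T : Finset α)
    (hT : T.card ≤ K) : ∃ (e : α → Fin K) (r : Fin K → α), ∀ x ∈ T, r (e x) = x := by
  classical
  let e : α → Fin K := fun x => if h : x ∈ T then Fin.castLE hT (T.equivFin ⟨x, h⟩) else ⟨0, hs⟩
  have he : ∀ x ∈ T, ∀ y ∈ T, e x = e y → x = y := by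
    intro x hx y hy h
    simp only [e, dif_pos hx, dif_pos hy] at h
    have h2 := T.equivFin.injective (Fin.castLE_injective hT h)
    exact congrArg Subtype.val h2
  let r : Fin K → α := fun i => if h : ∃ x ∈ T, e x = i then h.choose else Classical.arbitrary α
  refine ⟨e, r, ?_⟩
  intro x hx
  have h : ∃ y ∈ T, e y = e x := ⟨x, hx, rfl⟩
  simp only [r, dif_pos h]
  exact he _ h.choose_spec.1 _ hx h.choose_spec.2

/-- The guesses of the vertices of the new block. -/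
abbrev KapV (n : ℕ) := (Fin n → ℕ) → (Fin n → ℕ) → Bx n → Bx n → Bx n → (Fin n → ℕ) → Fin n →
  Finset ℕ

/-- The guesses are small and no vertex sees its own colour. -/
def KVOK {n : ℕ} (s : ℕ) (κ : KapV n) : Prop :=
  (∀ τ c A B N f k, (κ τ c A B N f k).card ≤ s) ∧
    ∀ τ c A B N f f' k, (∀ j, j ≠ k → f j = f' j) → κ τ c A B N f k = κ τ c A B N f' k

/-- The extension property. -/
def ExtB (n s L M q : ℕ) : Prop :=
  ∀ (T S : Bx n) (κ : KapV n), KVOK s κ →
    ∃ (f : Fin n → ℕ) (A : Bx n → (Fin n → ℕ) → Bx n) (B : (Fin n → ℕ) → Bx n → Bx n)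
    (N : (Fin n → ℕ) → Bx n → (Fin n → ℕ) → Bx n → Bx n), (∀ k, (T k).card ≤ M) →
      (∀ k, (S k).card ≤ M) → (∀ k, f k < q) ∧
    (∀ P c k, (A P c k).card ≤ M) ∧ (∀ τ Q k, (B τ Q k).card ≤ M) ∧
    ∀ τ P c Q, (∀ k, τ k ∈ P k) → (∀ k, c k ∈ Q k) → (∀ k, P k ⊆ T k) → (∀ k, Q k ⊆ S k) →
      (∀ k, (P k).card = L) → (∀ k, (Q k).card = L) →
      (∀ k, f k ∈ N τ P c Q k ∧ (N τ P c Q k).card = L ∧ N τ P c Q k ⊆ A P c k ∧
        N τ P c Q k ⊆ B τ Q k) ∧ ∀ k, f k ∉ κ τ c (A P c) (B τ Q) (N τ P c Q) f k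

theorem exists_extB (n s : ℕ) : ∃ M q : ℕ, n * s + 1 < M ∧ 0 < q ∧
    ExtB n s (n * s + 1) M q := by
  classical
  obtain ⟨M, D, r, hLM, hpar, hD⟩ := exists_par n (n * s + 1)
  obtain ⟨q, hq, h⟩ := core_finB n s (n * s + 1) M (M ^ n) ((n * s + 1) ^ n)
    (core_infB n s (n * s + 1) M (M ^ n) D r (Nat.lt_succ_self _) rfl hpar hD)
  refine ⟨M, q, hLM, hq, ?_⟩
  intro T S κ hκ
  by_cases hTS : (∀ k, (T k).card ≤ M) ∧ (∀ k, (S k).card ≤ M)
  · obtain ⟨hT, hS⟩ := hTS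
    have hM : 0 < M := by omega
    have hK : 0 < M ^ n := Nat.pow_pos hM
    have hcT : ∀ T : Bx n, (∀ k, (T k).card ≤ M) → (Fintype.piFinset T).card ≤ M ^ n := by
      intro T hT
      rw [Fintype.card_piFinset]
      calc ∏ k, (T k).card ≤ ∏ _k : Fin n, M := Finset.prod_le_prod' (fun k _ => hT k)
        _ = M ^ n := by rw [prod_const, card_univ, Fintype.card_fin]
    have hcL : ∀ T : Bx n, (∀ k, (T k).card = n * s + 1) →
        (Fintype.piFinset T).card = (n * s + 1) ^ n := by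
      intro T hT
      rw [Fintype.card_piFinset]
      simp only [hT, prod_const, card_univ, Fintype.card_fin]
    obtain ⟨e, r, her⟩ := exists_codeB hK (Fintype.piFinset T) (hcT T hT)
    obtain ⟨e', r', her'⟩ := exists_codeB hK (Fintype.piFinset S) (hcT S hS)
    obtain ⟨f, A, B, N, hf, hA, hB, hN⟩ := h (fun ij => κ (r ij.1) (r' ij.2))
      ⟨fun ij A B N f k => hκ.1 _ _ _ _ _ _ _, fun ij A B N f f' k hff =>
        hκ.2 _ _ _ _ _ _ _ _ hff⟩
    refine ⟨f, fun P c => A ((Fintype.piFinset P).image e) (e' c),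
      fun τ Q => B (e τ) ((Fintype.piFinset Q).image e'),
      fun τ P c Q => N (e τ) ((Fintype.piFinset P).image e) (e' c) ((Fintype.piFinset Q).image e'),
      fun _ _ => ⟨hf, fun P c k => (hA _ _ k).1, fun τ Q k => (hB _ _ k).1, ?_⟩⟩
    intro τ P c Q h1 h2 h3 h4 h5 h6
    have h1' : τ ∈ Fintype.piFinset P := Fintype.mem_piFinset.2 h1
    have h2' : c ∈ Fintype.piFinset Q := Fintype.mem_piFinset.2 h2
    have hτT : τ ∈ Fintype.piFinset T := Fintype.mem_piFinset.2 (fun k => h3 k (h1 k))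
    have hcS : c ∈ Fintype.piFinset S := Fintype.mem_piFinset.2 (fun k => h4 k (h2 k))
    have h7 := hN (e τ) ((Fintype.piFinset P).image e) (e' c) ((Fintype.piFinset Q).image e')
      (mem_image_of_mem e h1') (mem_image_of_mem e' h2')
      (le_trans card_image_le (le_of_eq (hcL P h5))) (le_trans card_image_le (le_of_eq (hcL Q h6)))
    simp only [her τ hτT, her' c hcS] at h7
    exact h7
  · exact ⟨fun _ => 0, fun _ _ _ => ∅, fun _ _ _ => ∅, fun _ _ _ _ _ => ∅,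
      fun h1 h2 => absurd ⟨h1, h2⟩ hTS⟩

end Pool.Agent.Lib.MP_994fee_co.TwB
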