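import Pool.Agent.Lib.MP_994fee_co.TwB.Inf19

/-!
# The extension lemma for boxes and a finite palette (compactness)
-/

namespace Pool.Agent.Lib.MP_994fee_co.TwB

open Finset

theorem core_finB (n s L M K m : ℕ)
    (hinf : ∀ κ : KapB n K, KOK s κ → SolB n L M K m κ (fun _ => True)) :
    ∃ q : ℕ, 0 < q ∧ ∀ κ : KapB n K, KOK s κ → SolB n L M K m κ (fun z => z < q) := by
  classical
  by_contra hcon
  push Not at hcon
  have h1 : ∀ q : ℕ, ∃ κ : KapB n K, KOK s κ ∧ ¬ SolB n L M K m κ (fun z => z < q + 1) :=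
    fun q => hcon (q + 1) (Nat.succ_pos q)
  choose Ka hK1 hK2 using h1
  let U : Ultrafilter ℕ := Filter.hyperfilter ℕ
  let κ : KapB n K := fun cd A B N f k =>
    (N k).filter (fun x => ∀ᶠ q in (U : Filter ℕ), x ∈ Ka q cd A B N f k)
  have hκ : KOK s κ := by
    constructor
    · intro cd A B N f k
      have h2 : ∀ᶠ q in (U : Filter ℕ), ∀ x ∈ κ cd A B N f k, x ∈ Ka q cd A B N f k := by
        rw [Filter.eventually_all_finset]
        intro x hx
        exact (mem_filter.1 hx).2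
      obtain ⟨q, hq⟩ := h2.exists
      exact le_trans (Finset.card_le_card hq) ((hK1 q).1 cd A B N f k)
    · intro cd A B N f f' k hff
      have h2 : ∀ q, Ka q cd A B N f k = Ka q cd A B N f' k := fun q => (hK1 q).2 cd A B N f f' k hff
      simp only [κ, h2]
  obtain ⟨f, A, B, N, _, hA, hB, hN⟩ := hinf κ hκ
  have hU : ∀ m : ℕ, ∀ᶠ q in (U : Filter ℕ), m < q + 1 := by
    intro m
    have h3 : (Filter.hyperfilter ℕ : Filter ℕ) ≤ Filter.atTop := by
      rw [← Nat.cofinite_eq_atTop]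
      exact Filter.hyperfilter_le_cofinite
    have h4 : ∀ᶠ q in (Filter.atTop : Filter ℕ), m < q + 1 := by
      filter_upwards [Filter.eventually_ge_atTop m] with q hq
      omega
    exact h3 h4
  have e1 : ∀ᶠ q in (U : Filter ℕ), ∀ (P : Finset (Fin K)) (c : Fin K) (k : Fin n), ∀ z ∈ A P c k,
      z < q + 1 := by
    rw [Filter.eventually_all]
    intro P
    rw [Filter.eventually_all]
    intro c
    rw [Filter.eventually_all]
    intro k
    rw [Filter.eventually_all_finset]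
    exact fun z _ => hU z
  have e2 : ∀ᶠ q in (U : Filter ℕ), ∀ (τ : Fin K) (Q : Finset (Fin K)) (k : Fin n), ∀ z ∈ B τ Q k,
      z < q + 1 := by
    rw [Filter.eventually_all]
    intro τ
    rw [Filter.eventually_all]
    intro Q
    rw [Filter.eventually_all]
    intro k
    rw [Filter.eventually_all_finset]
    exact fun z _ => hU z
  have e4 : ∀ᶠ q in (U : Filter ℕ), ∀ k : Fin n, f k < q + 1 := by
    rw [Filter.eventually_all]
    exact fun k => hU (f k)
  have e3 : ∀ᶠ q in (U : Filter ℕ), ∀ (τ : Fin K) (P : Finset (Fin K)) (c : Fin K)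
      (Q : Finset (Fin K)) (k : Fin n), τ ∈ P → c ∈ Q → P.card ≤ m → Q.card ≤ m →
      f k ∉ Ka q (τ, c) (A P c) (B τ Q) (N τ P c Q) f k := by
    rw [Filter.eventually_all]
    intro τ
    rw [Filter.eventually_all]
    intro P
    rw [Filter.eventually_all]
    intro c
    rw [Filter.eventually_all]
    intro Q
    rw [Filter.eventually_all]
    intro k
    by_cases h : τ ∈ P ∧ c ∈ Q ∧ P.card ≤ m ∧ Q.card ≤ m
    · obtain ⟨h1, h2, h3, h4⟩ := h
      obtain ⟨h5, h9⟩ := hN τ P c Q h1 h2 h3 h4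
      have h10 : ¬ ∀ᶠ q in (U : Filter ℕ), f k ∈ Ka q (τ, c) (A P c) (B τ Q) (N τ P c Q) f k :=
        fun h => h9 k (mem_filter.2 ⟨(h5 k).1, h⟩)
      rw [← Ultrafilter.eventually_not] at h10
      filter_upwards [h10] with q hq _ _ _ _
      exact hq
    · filter_upwards with q h1 h2 h3 h4
      exact absurd ⟨h1, h2, h3, h4⟩ h
  obtain ⟨q, ⟨⟨hq1, hq2⟩, hq3⟩, hq4⟩ := (((e1.and e2).and e3).and e4).exists
  apply hK2 q
  refine ⟨f, A, B, N, hq4, fun P c k => ⟨(hA P c k).1, hq1 P c k⟩,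
    fun τ Q k => ⟨(hB τ Q k).1, hq2 τ Q k⟩, ?_⟩
  intro τ P c Q h1 h2 h3 h4
  obtain ⟨h5, _⟩ := hN τ P c Q h1 h2 h3 h4
  exact ⟨h5, fun k => hq3 τ P c Q k h1 h2 h3 h4⟩

end Pool.Agent.Lib.MP_994fee_co.TwB
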