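import Pool.Agent.Lib.MP_994fee_co.TwB.Game19
import Pool.Agent.Lib.MP_994fee_co.Two.Frame

/-!
# Blocks along a graph of treewidth two, and layers
-/

namespace Pool.Agent.Lib.MP_994fee_co

open Finset TL

namespace TwB

theorem beat_allB {V : Type} [DecidableEq V] {T : SimpleGraph V} {n s L M q : ℕ} (hLM : L ≤ M)
    (hL0 : 0 < L) (hE : ExtB n s L M q) (rk : V → ℕ) (S : Finset V)
    (hinj : Set.InjOn rk (S : Set V))
    (hc : ∀ v ∈ S, ∀ W ⊆ S, (∀ w ∈ W, T.Adj v w ∧ rk w < rk v) → W.card ≤ 2)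
    (hadj : ∀ v ∈ S, ∀ w ∈ S, ∀ w' ∈ S, T.Adj v w → rk w < rk v → T.Adj v w' → rk w' < rk v →
      w ≠ w' → T.Adj w w') : Beat T n s L M q S := by
  classical
  induction S using Finset.induction_on_max_value rk with
  | empty =>
    intro h _ _
    exact ⟨⟨fun _ _ => 0, fun _ _ => ∅, fun _ _ _ => ∅⟩,
      ⟨fun v hv => absurd hv (notMem_empty v), fun v hv => absurd hv (notMem_empty v)⟩,
      fun v hv => absurd hv (notMem_empty v)⟩
  | insert z A hz hmax ih =>
    have hlt : ∀ v ∈ A, rk v < rk z := by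
      intro v hv
      refine lt_of_le_of_ne (hmax v hv) ?_
      intro h
      have := hinj (by exact_mod_cast mem_insert_of_mem hv) (by exact_mod_cast mem_insert_self z A) h
      exact hz (this ▸ hv)
    refine beat_insertB hLM hL0 hE hz (ih ?_ ?_ ?_) ?_ ?_
    · intro v hv w hw h
      exact hinj (by exact_mod_cast mem_insert_of_mem (by exact_mod_cast hv))
        (by exact_mod_cast mem_insert_of_mem (by exact_mod_cast hw)) h
    · intro v hv W hW
      exact hc v (mem_insert_of_mem hv) W (hW.trans (subset_insert z A))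
    · intro v hv w hw w' hw'
      exact hadj v (mem_insert_of_mem hv) w (mem_insert_of_mem hw) w' (mem_insert_of_mem hw')
    · intro W hW hW2
      exact hc z (mem_insert_self z A) W (hW.trans (subset_insert z A))
        (fun w hw => ⟨hW2 w hw, hlt w (hW hw)⟩)
    · intro x hx y hy hzx hzy hxy
      exact hadj z (mem_insert_self z A) x (mem_insert_of_mem hx) y (mem_insert_of_mem hy) hzx
        (hlt x hx) hzy (hlt y hy) hxy

/-- The structure of blocks of at most `n` vertices along a graph of treewidth at most two, on a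
set of vertices. -/
def BlkOn {V : Type} (n : ℕ) (G : SimpleGraph V) (S : Finset V) : Prop :=
  ∃ (β : V → ℕ) (T : SimpleGraph ℕ) (rk : ℕ → ℕ) (B : Finset ℕ), (∀ v ∈ S, β v ∈ B) ∧
    (∀ i, ∀ W ⊆ S, (∀ v ∈ W, β v = i) → W.card ≤ n) ∧
    (∀ v ∈ S, ∀ w ∈ S, G.Adj v w → β v = β w ∨ T.Adj (β v) (β w)) ∧
    Set.InjOn rk (B : Set ℕ) ∧
    (∀ i ∈ B, ∀ W ⊆ B, (∀ j ∈ W, T.Adj i j ∧ rk j < rk i) → W.card ≤ 2) ∧
    ∀ i ∈ B, ∀ j ∈ B, ∀ j' ∈ B, T.Adj i j → rk j < rk i → T.Adj i j' → rk j' < rk i →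
      j ≠ j' → T.Adj j j'

theorem blkOn_loses (n s : ℕ) : ∃ q : ℕ, 0 < q ∧ ∀ {V : Type} (G : SimpleGraph V) (S : Finset V),
    BlkOn n G S → LosesOn G S s q := by
  classical
  obtain ⟨M, q, hLM, hq, hE⟩ := exists_extB n s
  refine ⟨q, hq, ?_⟩
  rintro V G S ⟨β, T, rk, B, hβB, hβn, hGT, hinj, hc, hadj⟩ g hg hgs
  rcases S.eq_empty_or_nonempty with hS0 | ⟨v0, hv0⟩
  · subst hS0
    exact ⟨fun _ => 0, fun _ => hq, fun v hv => absurd hv (notMem_empty v)⟩
  have hn : 0 < n := by
    have h1 := hβn (β v0) {v0} (singleton_subset_iff.2 hv0) (by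
      intro v hv
      rw [mem_singleton.1 hv])
    rw [card_singleton] at h1
    exact h1
  have : Nonempty V := ⟨v0⟩
  have hcode := fun i => exists_codeB hn (S.filter (fun v => β v = i))
    (hβn i _ (filter_subset _ _) (fun v hv => (mem_filter.1 hv).2))
  choose e r her using hcode
  let ix : V → Fin n := fun v => e (β v) v
  have hix : ∀ v ∈ S, ∀ w ∈ S, β v = β w → ix v = ix w → v = w := by
    intro v hv w hw h1 h2
    have h3 := her (β v) v (mem_filter.2 ⟨hv, rfl⟩)
    have h4 := her (β v) w (mem_filter.2 ⟨hw, h1.symm⟩)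
    have h5 : e (β v) v = e (β v) w := by
      have : e (β v) v = e (β w) w := h2
      rw [this, h1]
    rw [← h3, ← h4, h5]
  let cV : St ℕ n → V → ℕ := fun σ v => if v ∈ S then σ.c (β v) (ix v) else 0
  obtain ⟨σ, h1, h2⟩ := beat_allB hLM.le (Nat.succ_pos _) hE rk B hinj hc hadj
    (fun i σ k => if h : ∃ v, v ∈ S ∧ β v = i ∧ ix v = k then g h.choose (cV σ) else ∅)
    (by
      intro i hi k σ σ' hL hown
      by_cases h : ∃ v, v ∈ S ∧ β v = i ∧ ix v = k
      · simp only [dif_pos h]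
        obtain ⟨hvS, hvi, hvk⟩ := h.choose_spec
        apply hg _ hvS
        intro u hu hvu
        simp only [cV, if_pos hu]
        rcases hGT _ hvS u hu hvu with h3 | h3
        · have h4 : ix u ≠ k := by
            intro h5
            exact hvu.ne (hix _ hvS u hu h3 (hvk.trans h5.symm))
          rw [← h3, hvi]
          exact hown _ h4
        · rw [hvi] at h3
          rw [(hL.2 (β u) (hβB u hu) h3).1]
      · simp only [dif_neg h])
    (by
      intro i σ k
      by_cases h : ∃ v, v ∈ S ∧ β v = i ∧ ix v = k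
      · simp only [dif_pos h]
        exact hgs _ h.choose_spec.1 _
      · simp only [dif_neg h, card_empty]
        exact Nat.zero_le s)
  refine ⟨cV σ, ?_, ?_⟩
  · intro v
    by_cases hv : v ∈ S
    · simp only [cV, if_pos hv]
      exact (h1.1 (β v) (hβB v hv) (ix v)).2.2
    · simp only [cV, if_neg hv]
      exact hq
  · intro v hv
    have h3 := h2 (β v) (hβB v hv) (ix v)
    have h : ∃ w, w ∈ S ∧ β w = β v ∧ ix w = ix v := ⟨v, hv, rfl, rfl⟩
    have h4 : h.choose = v :=
      hix _ h.choose_spec.1 v hv h.choose_spec.2.1 h.choose_spec.2.2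
    simp only [dif_pos h] at h3
    rw [h4] at h3
    have h5 : cV σ v = σ.c (β v) (ix v) := by simp only [cV, if_pos hv]
    rw [h5]
    exact h3

lemma blkLevels (n : ℕ) : ∀ M s : ℕ, ∃ q : ℕ, ∀ {V : Type} [Fintype V] [DecidableEq V]
    (G : SimpleGraph V) (X : Finset V) (lev : V → ℕ), (∀ v ∈ X, lev v < M) →
    (∀ v ∈ X, {w | w ∈ X ∧ G.Adj v w ∧ lev w < lev v}.ncard ≤ n) →
    (∀ i, BlkOn n G (X.filter (fun v => lev v = i))) → LosesOn G X s q := by
  intro M
  induction M with
  | zero =>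
    intro s
    refine ⟨1, ?_⟩
    intro V _ _ G X lev h1 _ _ g _ _
    exact ⟨fun _ => 0, fun _ => Nat.zero_lt_one, fun v hv => absurd (h1 v hv) (Nat.not_lt_zero _)⟩
  | succ M ih =>
    intro s
    obtain ⟨K₁, hK₁, hT⟩ := blkOn_loses n s
    obtain ⟨K₂, hK₂⟩ := ih (s * K₁ ^ n)
    refine ⟨max K₁ K₂, ?_⟩
    intro V _ _ G X lev h1 h2 h3
    have hsd : ∀ v, v ∈ X \ X.filter (fun v => lev v = 0) ↔ v ∈ X ∧ lev v ≠ 0 := by
      intro v
      rw [Finset.mem_sdiff, Finset.mem_filter]
      tauto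
    refine LosesOn.step (Y := X.filter (fun v => lev v = 0)) (Finset.filter_subset _ _)
      (B := n) ?_ hK₁ (hT G _ (h3 0)) ?_
    · intro x hx
      obtain ⟨hxX, hx0⟩ := (hsd x).1 hx
      refine le_trans (Set.ncard_le_ncard ?_ (Set.toFinite _)) (h2 x hxX)
      rintro w ⟨hw, hxw⟩
      have := Finset.mem_filter.1 hw
      exact ⟨this.1, hxw, by rw [this.2]; omega⟩
    · refine hK₂ G _ (fun v => lev v - 1) ?_ ?_ ?_
      · intro v hv
        obtain ⟨hvX, hv0⟩ := (hsd v).1 hv
        have := h1 v hvX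
        show lev v - 1 < M
        omega
      · intro v hv
        obtain ⟨hvX, hv0⟩ := (hsd v).1 hv
        refine le_trans (Set.ncard_le_ncard ?_ (Set.toFinite _)) (h2 v hvX)
        rintro w ⟨hw, hvw, hlt⟩
        obtain ⟨hwX, hw0⟩ := (hsd w).1 hw
        have hlt' : lev w - 1 < lev v - 1 := hlt
        exact ⟨hwX, hvw, by omega⟩
      · intro i
        have : (X \ X.filter (fun v => lev v = 0)).filter (fun v => lev v - 1 = i) =
            X.filter (fun v => lev v = i + 1) := by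
          ext v
          rw [Finset.mem_filter, hsd, Finset.mem_filter]
          constructor
          · rintro ⟨⟨h4, h5⟩, h6⟩
            exact ⟨h4, by omega⟩
          · rintro ⟨h4, h5⟩
            exact ⟨⟨h4, by omega⟩, by omega⟩
        rw [this]
        exact h3 (i + 1)

end TwB

/-- The vertices of `G` lie in blocks of at most `n` vertices, and two adjacent vertices lie in the
same block or in blocks adjacent in a graph `H` of treewidth at most two: `G` is a subgraph of the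
strong product of `H` with a complete graph on `n` vertices. -/
def TwoTreeBlocks {V : Type} (n : ℕ) (G : SimpleGraph V) : Prop :=
  ∃ (m : ℕ) (β : V → Fin m) (H : SimpleGraph (Fin m)), TreewidthLE 2 H ∧
    (∀ i, {v | β v = i}.ncard ≤ n) ∧ ∀ v w, G.Adj v w → β v = β w ∨ H.Adj (β v) (β w)

/-- `G` is layered with parameter `n`: the vertices have levels below `n`, every vertex has at most
`n` neighbours of smaller level, and every level induces a graph with blocks of at most `n` vertices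
along a graph of treewidth at most two. -/
def TwoTreeBlockLayered {V : Type} (n : ℕ) (G : SimpleGraph V) : Prop :=
  ∃ lev : V → ℕ, (∀ v, lev v < n) ∧ (∀ v, {w | G.Adj v w ∧ lev w < lev v}.ncard ≤ n) ∧
    ∀ i, TwoTreeBlocks n (G.induce {v | lev v = i})

namespace TwB

/-- The block structure of an induced subgraph. -/
lemma blkOn_of_induce {V : Type} [Fintype V] [DecidableEq V] {n : ℕ} {G : SimpleGraph V}
    {lev : V → ℕ} {i : ℕ} (h : TwoTreeBlocks n (G.induce {v | lev v = i})) :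
    BlkOn n G (Finset.univ.filter (fun v => lev v = i)) := by
  classical
  obtain ⟨m, β, H, ⟨T, rk, hHT, hinj, hT⟩, hβ, hG⟩ := h
  have hlev : ∀ v ∈ (Finset.univ.filter (fun v => lev v = i)), lev v = i :=
    fun v hv => (Finset.mem_filter.1 hv).2
  let em : Fin m ↪ ℕ := ⟨Fin.val, Fin.val_injective⟩
  have hmap : ∀ (x y : Fin m), (T.map em).Adj x y ↔ T.Adj x y := by
    intro x y
    rw [SimpleGraph.map_adj]
    constructor
    · rintro ⟨x', y', hxy, h1, h2⟩
      rw [← Fin.ext h1, ← Fin.ext h2]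
      exact hxy
    · intro h
      exact ⟨_, _, h, rfl, rfl⟩
  let b : V → ℕ := fun v => if h : lev v = i then (β ⟨v, h⟩ : ℕ) else 0
  have hb : ∀ (v : V) (hv : lev v = i), b v = (β ⟨v, hv⟩ : ℕ) := by
    intro v hv
    simp only [b, hv, dif_pos]
  let r : ℕ → ℕ := fun j => if h : j < m then rk ⟨j, h⟩ else 0
  have hr : ∀ (j : ℕ) (hj : j < m), r j = rk ⟨j, hj⟩ := by
    intro j hj
    simp only [r, hj, dif_pos]
  refine ⟨b, T.map em, r, range m, ?_, ?_, ?_, ?_, ?_, ?_⟩
  · intro v hv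
    rw [hb v (hlev v hv)]
    exact mem_range.2 (β _).2
  · intro j W hW hW2
    rcases W.eq_empty_or_nonempty with h0 | ⟨w0, hw0⟩
    · rw [h0, card_empty]
      exact Nat.zero_le n
    · have hw0' := hlev w0 (hW hw0)
      have hj := hW2 w0 hw0
      rw [hb w0 hw0'] at hj
      refine le_trans ?_ (hβ (β ⟨w0, hw0'⟩))
      rw [← Set.ncard_image_of_injective _
        (Subtype.val_injective (p := fun v => v ∈ {v | lev v = i})), ← Set.ncard_coe_finset]
      refine Set.ncard_le_ncard ?_ (Set.toFinite _)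
      intro w hw
      have hw1 := Finset.mem_coe.1 hw
      have hw' := hlev w (hW hw1)
      have h1 := hW2 w hw1
      rw [hb w hw'] at h1
      exact ⟨⟨w, hw'⟩, Fin.ext (h1.trans hj.symm), rfl⟩
  · intro v hv w hw hvw
    have hv' := hlev v hv
    have hw' := hlev w hw
    rw [hb v hv', hb w hw', hmap]
    rcases hG ⟨v, hv'⟩ ⟨w, hw'⟩ hvw with h | h
    · exact Or.inl (congrArg Fin.val h)
    · exact Or.inr (hHT h)
  · intro j hj j' hj' hjj
    have h1 := mem_range.1 (Finset.mem_coe.1 hj)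
    have h2 := mem_range.1 (Finset.mem_coe.1 hj')
    rw [hr j h1, hr j' h2] at hjj
    exact congrArg Fin.val (hinj hjj)
  · intro j hj W hW hW2
    have hj' := mem_range.1 hj
    refine le_trans ?_ (hT ⟨j, hj'⟩).1
    rw [← Set.ncard_image_of_injective _ Fin.val_injective, ← Set.ncard_coe_finset]
    refine Set.ncard_le_ncard ?_ (Set.toFinite _)
    intro w hw
    have hw1 := Finset.mem_coe.1 hw
    have hw' := mem_range.1 (hW hw1)
    obtain ⟨h1, h2⟩ := hW2 w hw1
    rw [hr j hj', hr w hw'] at h2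
    exact ⟨⟨w, hw'⟩, ⟨(hmap ⟨j, hj'⟩ ⟨w, hw'⟩).1 h1, h2⟩, rfl⟩
  · intro j hj w hw w' hw' h1 h2 h3 h4 h5
    have hj0 := mem_range.1 hj
    have hw0 := mem_range.1 hw
    have hw0' := mem_range.1 hw'
    rw [hr j hj0, hr w hw0] at h2
    rw [hr j hj0, hr w' hw0'] at h4
    exact (hmap ⟨w, hw0⟩ ⟨w', hw0'⟩).2 ((hT ⟨j, hj0⟩).2 ⟨w, hw0⟩ ⟨w', hw0'⟩
      ((hmap ⟨j, hj0⟩ ⟨w, hw0⟩).1 h1) h2 ((hmap ⟨j, hj0⟩ ⟨w', hw0'⟩).1 h3) h4
      (fun h => h5 (congrArg Fin.val h)))

end TwB

/-- The hat guessing number is bounded on layered graphs whose levels have blocks of bounded size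
along a graph of treewidth at most two. -/
theorem hat_twoTreeBlockLayered (n : ℕ) : ∃ q₀ : ℕ, ∀ (V : Type) [Fintype V] (G : SimpleGraph V),
    TwoTreeBlockLayered n G → ∀ q : ℕ, (∃ s, IsWinning G q s) → q < q₀ := by
  classical
  obtain ⟨q₀, hq₀⟩ := TwB.blkLevels n n 1
  refine ⟨q₀ + 1, ?_⟩
  rintro V _ G ⟨lev, h1, h2, h3⟩ q hst
  by_contra hq
  refine Pair.not_winning (q₀ := q₀) ?_ (q := q) (by omega) (by omega) hst
  apply hq₀ G Finset.univ lev (fun v _ => h1 v)
  · intro v _
    refine le_trans (Set.ncard_le_ncard ?_ (Set.toFinite _)) (h2 v)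
    rintro w ⟨_, hw⟩
    exact hw
  · intro i
    exact TwB.blkOn_of_induce (h3 i)

end Pool.Agent.Lib.MP_994fee_co
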