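import Pool.Agent.Lib.MP_994fee_co.TwB.Ext19

/-!
# Elimination of the last block
-/

namespace Pool.Agent.Lib.MP_994fee_co.TwB

open Finset

/-- A state of the game: colours, lists and label boxes. -/
structure St (V : Type) (n : ℕ) where
  /-- the colours -/
  c : V → Fin n → ℕ
  /-- the lists -/
  N : V → Bx n
  /-- the label boxes: `b u v` is the label box of `u` on the edge between `u` and `v` -/
  b : V → V → Bx n

variable {V : Type} {n : ℕ}

/-- Apart from its own colours, the block `v` cannot distinguish the states `σ` and `σ'`. -/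
def Loc (T : SimpleGraph V) (A : Finset V) (v : V) (σ σ' : St V n) : Prop :=
  σ.N v = σ'.N v ∧ ∀ u ∈ A, T.Adj v u →
    σ.c u = σ'.c u ∧ σ.b v u = σ'.b v u ∧ σ.b u v = σ'.b u v

/-- The sizes of the lists and of the label boxes are right. -/
def Good (T : SimpleGraph V) (L M q : ℕ) (A : Finset V) (σ : St V n) : Prop :=
  (∀ v ∈ A, ∀ k, σ.c v k ∈ σ.N v k ∧ (σ.N v k).card = L ∧ σ.c v k < q) ∧
    ∀ u ∈ A, ∀ v ∈ A, T.Adj u v → ∀ k, σ.N u k ⊆ σ.b u v k ∧ (σ.b u v k).card ≤ M

/-- The strategy of the block vertices is local on `A`. -/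
def LocStr (T : SimpleGraph V) (A : Finset V) (h : V → St V n → Fin n → Finset ℕ) : Prop :=
  ∀ v ∈ A, ∀ k σ σ', Loc T A v σ σ' → (∀ j, j ≠ k → σ.c v j = σ'.c v j) → h v σ k = h v σ' k

/-- The players are beaten on `A`. -/
def Beat (T : SimpleGraph V) (n s L M q : ℕ) (A : Finset V) : Prop :=
  ∀ h : V → St V n → Fin n → Finset ℕ, LocStr T A h → (∀ v σ k, (h v σ k).card ≤ s) →
    ∃ σ, Good T L M q A σ ∧ ∀ v ∈ A, ∀ k, σ.c v k ∉ h v σ k

/-- The state with a new block `z`. -/
noncomputable def St.ext (σ : St V n) (z : V) (f : Fin n → ℕ) (G : Bx n) (B C : V → Bx n) :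
    St V n :=
  open Classical in
  ⟨fun v => if v = z then f else σ.c v, fun v => if v = z then G else σ.N v,
    fun u v => if u = z then B v else if v = z then C u else σ.b u v⟩

theorem beat_stepB {T : SimpleGraph V} {s L M q : ℕ} [DecidableEq V] {A : Finset V} {z : V}
    (hz : z ∉ A) (hA : Beat T n s L M q A) (h : V → St V n → Fin n → Finset ℕ)
    (hl : LocStr T (insert z A) h) (hg : ∀ v σ k, (h v σ k).card ≤ s)
    (F : St V n → Fin n → ℕ) (G : St V n → Bx n) (B C : St V n → V → Bx n)
    (hloc : ∀ v ∈ A, T.Adj v z → ∀ σ σ', Loc T A v σ σ' →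
      F σ = F σ' ∧ B σ v = B σ' v ∧ C σ v = C σ' v)
    (hgood : ∀ σ, Good T L M q A σ →
      (∀ k, F σ k ∈ G σ k ∧ (G σ k).card = L ∧ F σ k < q) ∧
      (∀ v ∈ A, T.Adj v z → ∀ k, G σ k ⊆ B σ v k ∧ (B σ v k).card ≤ M ∧ σ.N v k ⊆ C σ v k ∧
        (C σ v k).card ≤ M) ∧
      ∀ k, F σ k ∉ h z (σ.ext z (F σ) (G σ) (B σ) (C σ)) k) :
    ∃ σ, Good T L M q (insert z A) σ ∧ ∀ v ∈ insert z A, ∀ k, σ.c v k ∉ h v σ k := by
  have hne : ∀ v ∈ A, v ≠ z := fun v hv h => hz (h ▸ hv)
  obtain ⟨σ, hσ, hσ2⟩ := hA (fun v σ => h v (σ.ext z (F σ) (fun _ => ∅) (B σ) (C σ))) (by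
    intro v hv k σ σ' hL hown
    apply hl v (mem_insert_of_mem hv)
    · refine ⟨?_, ?_⟩
      · simp only [St.ext, if_neg (hne v hv)]
        exact hL.1
      · intro u hu hvu
        rcases mem_insert.1 hu with rfl | hu
        · obtain ⟨h1, h2, h3⟩ := hloc v hv hvu σ σ' hL
          simp only [St.ext, if_neg (hne v hv), if_true]
          exact ⟨h1, h3, h2⟩
        · simp only [St.ext, if_neg (hne v hv), if_neg (hne u hu)]
          exact hL.2 u hu hvu
    · intro j hj
      simp only [St.ext, if_neg (hne v hv)]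
      exact hown j hj) (fun v σ k => hg v _ k)
  obtain ⟨h1, h4, h5⟩ := hgood σ hσ
  refine ⟨σ.ext z (F σ) (G σ) (B σ) (C σ), ⟨?_, ?_⟩, ?_⟩
  · intro v hv
    rcases mem_insert.1 hv with rfl | hv
    · simp only [St.ext, if_true]
      exact h1
    · simp only [St.ext, if_neg (hne v hv)]
      exact hσ.1 v hv
  · intro u hu v hv huv k
    rcases mem_insert.1 hu with hu' | hu'
    · subst hu'
      rcases mem_insert.1 hv with hv' | hv'
      · exact absurd hv' (huv.ne').symm.symm
      · simp only [St.ext, if_true]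
        exact ⟨(h4 v hv' huv.symm k).1, (h4 v hv' huv.symm k).2.1⟩
    · rcases mem_insert.1 hv with hv' | hv'
      · subst hv'
        simp only [St.ext, if_true, if_neg (hne u hu')]
        exact ⟨(h4 u hu' huv k).2.2.1, (h4 u hu' huv k).2.2.2⟩
      · simp only [St.ext, if_neg (hne u hu'), if_neg (hne v hv')]
        exact hσ.2 u hu' v hv' huv k
  · intro v hv k
    rcases mem_insert.1 hv with hv' | hv'
    · subst hv'
      simp only [St.ext, if_true]
      exact h5 k
    · have h6 := hσ2 v hv' k
      have h7 : h v (σ.ext z (F σ) (G σ) (B σ) (C σ)) k =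
          h v (σ.ext z (F σ) (fun _ => ∅) (B σ) (C σ)) k := by
        apply hl v hv
        · refine ⟨?_, fun u _ _ => ⟨rfl, rfl, rfl⟩⟩
          simp only [St.ext, if_neg (hne v hv')]
        · intro j _
          rfl
      rw [h7]
      simp only [St.ext, if_neg (hne v hv')] at h6 ⊢
      exact h6

theorem beat_insertB {T : SimpleGraph V} {s L M q : ℕ} (hLM : L ≤ M) (hL0 : 0 < L)
    (hE : ExtB n s L M q) [DecidableEq V]
    {A : Finset V} {z : V} (hz : z ∉ A) (hA : Beat T n s L M q A)
    (hc : ∀ S ⊆ A, (∀ v ∈ S, T.Adj z v) → S.card ≤ 2)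
    (hadj : ∀ x ∈ A, ∀ y ∈ A, T.Adj z x → T.Adj z y → x ≠ y → T.Adj x y) :
    Beat T n s L M q (insert z A) := by
  classical
  intro h hl hg
  have hne : ∀ v ∈ A, v ≠ z := fun v hv h => hz (h ▸ hv)
  have h0r : (0 : ℕ) ∈ range L := mem_range.2 hL0
  have hRc : ∀ _k : Fin n, (range L).card = L := fun _ => card_range L
  obtain ⟨k, hk⟩ : ∃ k, (A.filter (fun v => T.Adj z v)).card = k := ⟨_, rfl⟩
  have hk3 : k ≤ 2 := by
    rw [← hk]
    exact hc _ (Finset.filter_subset _ _) (fun v hv => (mem_filter.1 hv).2)
  have hk2 : k = 0 ∨ k = 1 ∨ k = 2 := by omega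
  -- a general fact about the guesses of the block `z`
  have hKV : ∀ st : (Fin n → ℕ) → (Fin n → ℕ) → Bx n → Bx n → Bx n → (Fin n → ℕ) → St V n,
      (∀ τ c X Y N f f', Loc T (insert z A) z (st τ c X Y N f) (st τ c X Y N f')) →
      (∀ τ c X Y N f, (st τ c X Y N f).c z = f) →
      KVOK s (fun τ c X Y N f k => h z (st τ c X Y N f) k) := by
    intro st h1 h2
    refine ⟨fun τ c X Y N f k => hg _ _ _, ?_⟩
    intro τ c X Y N f f' k hff
    apply hl z (mem_insert_self z A) k _ _ (h1 τ c X Y N f f')
    intro j hj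
    rw [h2, h2]
    exact hff j hj
  rcases hk2 with rfl | rfl | rfl
  · -- no older neighbour
    have hno : ∀ v ∈ A, ¬ T.Adj z v := by
      intro v hv hzv
      have : v ∈ A.filter (fun v => T.Adj z v) := mem_filter.2 ⟨hv, hzv⟩
      rw [Finset.card_eq_zero.1 hk] at this
      exact absurd this (notMem_empty v)
    obtain ⟨f, A', B', N', hE'⟩ := hE (fun _ => range L) (fun _ => range L)
      (fun _ _ _ _ N f k => h z ⟨fun _ => f, fun _ => N, fun _ _ _ => ∅⟩ k)
      (hKV (fun _ _ _ _ N f => ⟨fun _ => f, fun _ => N, fun _ _ _ => ∅⟩)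
        (by
          intro τ c X Y N f f'
          refine ⟨rfl, ?_⟩
          intro u hu hzu
          rcases mem_insert.1 hu with hu | hu
          · exact absurd hu (hzu.ne')
          · exact absurd hzu (hno u hu))
        (fun _ _ _ _ _ _ => rfl))
    obtain ⟨hf, _, _, hN⟩ := hE' (fun _ => by rw [card_range]; exact hLM)
      (fun _ => by rw [card_range]; exact hLM)
    obtain ⟨h1, h5⟩ := hN (fun _ => 0) (fun _ => range L) (fun _ => 0) (fun _ => range L)
      (fun _ => h0r) (fun _ => h0r) (fun _ => Finset.Subset.refl _) (fun _ => Finset.Subset.refl _)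
      hRc hRc
    refine beat_stepB hz hA h hl hg (fun _ => f)
      (fun _ => N' (fun _ => 0) (fun _ => range L) (fun _ => 0) (fun _ => range L))
      (fun _ _ _ => ∅) (fun _ _ _ => ∅)
      (fun v hv hvz => absurd hvz.symm (hno v hv)) ?_
    intro σ _
    refine ⟨fun k => ⟨(h1 k).1, (h1 k).2.1, hf k⟩,
      fun v hv hvz => absurd hvz.symm (hno v hv), ?_⟩
    intro k
    have h6 : h z (σ.ext z f (N' (fun _ => 0) (fun _ => range L) (fun _ => 0) (fun _ => range L))
        (fun _ _ => ∅) (fun _ _ => ∅)) k =
        h z ⟨fun _ => f, fun _ => N' (fun _ => 0) (fun _ => range L) (fun _ => 0)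
          (fun _ => range L), fun _ _ _ => ∅⟩ k := by
      apply hl z (mem_insert_self z A)
      · refine ⟨by simp only [St.ext, if_true], ?_⟩
        intro u hu hzu
        rcases mem_insert.1 hu with hu | hu
        · exact absurd hu (hzu.ne')
        · exact absurd hzu (hno u hu)
      · intro j _
        simp only [St.ext, if_true]
    rw [h6]
    exact h5 k
  · -- one older neighbour
    obtain ⟨x, hx⟩ := Finset.card_eq_one.1 hk
    have hxA : x ∈ A ∧ T.Adj z x := by
      have : x ∈ A.filter (fun v => T.Adj z v) := by rw [hx]; exact mem_singleton_self x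
      exact mem_filter.1 this
    have hno : ∀ v ∈ A, T.Adj z v → v = x := by
      intro v hv hzv
      have : v ∈ A.filter (fun v => T.Adj z v) := mem_filter.2 ⟨hv, hzv⟩
      rw [hx] at this
      exact mem_singleton.1 this
    have hE1 := fun T0 : Bx n => hE T0 (fun _ => range L)
      (fun τ _ X _ N f k => h z ⟨fun v => if v = z then f else τ, fun _ => N,
        fun u _ => if u = z then X else T0⟩ k)
      (hKV (fun τ _ X _ N f => ⟨fun v => if v = z then f else τ, fun _ => N,
        fun u _ => if u = z then X else T0⟩)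
        (by
          intro τ c X Y N f f'
          refine ⟨rfl, ?_⟩
          intro u hu hzu
          rcases mem_insert.1 hu with hu | hu
          · exact absurd hu (hzu.ne')
          · simp only [if_neg (hne u hu)]
            exact ⟨trivial, trivial, trivial⟩)
        (fun _ _ _ _ _ _ => by simp only [if_true]))
    choose f A' B' N' hE' using hE1
    refine beat_stepB hz hA h hl hg (fun σ => f (σ.N x))
      (fun σ => N' (σ.N x) (σ.c x) (σ.N x) (fun _ => 0) (fun _ => range L))
      (fun σ _ => A' (σ.N x) (σ.N x) (fun _ => 0)) (fun σ _ => σ.N x) ?_ ?_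
    · intro v hv hvz σ σ' hL
      have hvx := hno v hv hvz.symm
      subst hvx
      simp only [hL.1]
      exact ⟨trivial, trivial, trivial⟩
    · intro σ hσ
      have hx1 := fun k => (hσ.1 x hxA.1 k).1
      have hx2 := fun k => (hσ.1 x hxA.1 k).2.1
      obtain ⟨hf, hA1, _, hN⟩ := hE' (σ.N x) (fun k => by rw [hx2 k]; exact hLM)
        (fun _ => by rw [card_range]; exact hLM)
      obtain ⟨h1, h5⟩ := hN (σ.c x) (σ.N x) (fun _ => 0) (fun _ => range L) hx1 (fun _ => h0r)
        (fun _ => Finset.Subset.refl _) (fun _ => Finset.Subset.refl _) hx2 hRc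
      refine ⟨fun k => ⟨(h1 k).1, (h1 k).2.1, hf k⟩, ?_, ?_⟩
      · intro v hv hvz k
        have hvx := hno v hv hvz.symm
        subst hvx
        exact ⟨(h1 k).2.2.1, hA1 _ _ k, Finset.Subset.refl _, by rw [hx2 k]; exact hLM⟩
      · intro k
        have h6 : h z (σ.ext z (f (σ.N x))
            (N' (σ.N x) (σ.c x) (σ.N x) (fun _ => 0) (fun _ => range L))
            (fun _ => A' (σ.N x) (σ.N x) (fun _ => 0)) (fun _ => σ.N x)) k =
            h z ⟨fun v => if v = z then f (σ.N x) else σ.c x,
              fun _ => N' (σ.N x) (σ.c x) (σ.N x) (fun _ => 0) (fun _ => range L),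
              fun u _ => if u = z then A' (σ.N x) (σ.N x) (fun _ => 0) else σ.N x⟩ k := by
          apply hl z (mem_insert_self z A)
          · refine ⟨by simp only [St.ext, if_true], ?_⟩
            intro u hu hzu
            rcases mem_insert.1 hu with hu | hu
            · exact absurd hu (hzu.ne')
            · have hux := hno u hu hzu
              subst hux
              simp only [St.ext, if_true, if_neg (hne u hu)]
              exact ⟨trivial, trivial, trivial⟩
          · intro j _
            simp only [St.ext, if_true]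
        rw [h6]
        exact h5 k
  · -- two older neighbours
    obtain ⟨x, y, hxy, hx⟩ := Finset.card_eq_two.1 hk
    have hxA : x ∈ A ∧ T.Adj z x := by
      have : x ∈ A.filter (fun v => T.Adj z v) := by rw [hx]; exact mem_insert_self x _
      exact mem_filter.1 this
    have hyA : y ∈ A ∧ T.Adj z y := by
      have : y ∈ A.filter (fun v => T.Adj z v) := by
        rw [hx]
        exact mem_insert_of_mem (mem_singleton_self y)
      exact mem_filter.1 this
    have hno : ∀ v ∈ A, T.Adj z v → v = x ∨ v = y := by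
      intro v hv hzv
      have : v ∈ A.filter (fun v => T.Adj z v) := mem_filter.2 ⟨hv, hzv⟩
      rw [hx, mem_insert, mem_singleton] at this
      exact this
    have hTxy : T.Adj x y := hadj x hxA.1 y hyA.1 hxA.2 hyA.2 hxy
    have hyx : y ≠ x := hxy.symm
    have hxz : x ≠ z := hne x hxA.1
    have hyz : y ≠ z := hne y hyA.1
    have hE1 := fun T0 S0 : Bx n => hE T0 S0
      (fun τ c X Y N f k => h z ⟨fun v => if v = z then f else if v = x then τ else c, fun _ => N,
        fun u v => if u = z then (if v = x then X else Y) else if u = x then T0 else S0⟩ k)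
      (hKV (fun τ c X Y N f => ⟨fun v => if v = z then f else if v = x then τ else c, fun _ => N,
        fun u v => if u = z then (if v = x then X else Y) else if u = x then T0 else S0⟩)
        (by
          intro τ c X Y N f f'
          refine ⟨rfl, ?_⟩
          intro u hu hzu
          rcases mem_insert.1 hu with hu | hu
          · exact absurd hu (hzu.ne')
          · simp only [if_neg (hne u hu)]
            exact ⟨trivial, trivial, trivial⟩)
        (fun _ _ _ _ _ _ => by simp only [if_true]))
    choose f A' B' N' hE' using hE1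
    refine beat_stepB hz hA h hl hg (fun σ => f (σ.b x y) (σ.b y x))
      (fun σ => N' (σ.b x y) (σ.b y x) (σ.c x) (σ.N x) (σ.c y) (σ.N y))
      (fun σ v => if v = x then A' (σ.b x y) (σ.b y x) (σ.N x) (σ.c y)
        else B' (σ.b x y) (σ.b y x) (σ.c x) (σ.N y))
      (fun σ v => if v = x then σ.b x y else σ.b y x) ?_ ?_
    · intro v hv hvz σ σ' hL
      rcases hno v hv hvz.symm with hvx | hvx
      · subst hvx
        obtain ⟨h1, h2, h3⟩ := hL.2 y hyA.1 hTxy
        simp only [if_true, hL.1, h1, h2, h3]
        exact ⟨trivial, trivial, trivial⟩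
      · subst hvx
        obtain ⟨h1, h2, h3⟩ := hL.2 x hxA.1 hTxy.symm
        simp only [if_neg hyx, hL.1, h1, h2, h3]
        exact ⟨trivial, trivial, trivial⟩
    · intro σ hσ
      have hx1 := fun k => (hσ.1 x hxA.1 k).1
      have hx2 := fun k => (hσ.1 x hxA.1 k).2.1
      have hy1 := fun k => (hσ.1 y hyA.1 k).1
      have hy2 := fun k => (hσ.1 y hyA.1 k).2.1
      have hb1 := fun k => (hσ.2 x hxA.1 y hyA.1 hTxy k).1
      have hb2 := fun k => (hσ.2 x hxA.1 y hyA.1 hTxy k).2
      have hb3 := fun k => (hσ.2 y hyA.1 x hxA.1 hTxy.symm k).1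
      have hb4 := fun k => (hσ.2 y hyA.1 x hxA.1 hTxy.symm k).2
      obtain ⟨hf, hA1, hB1, hN⟩ := hE' (σ.b x y) (σ.b y x) hb2 hb4
      obtain ⟨h1, h5⟩ := hN (σ.c x) (σ.N x) (σ.c y) (σ.N y) hx1 hy1 hb1 hb3 hx2 hy2
      refine ⟨fun k => ⟨(h1 k).1, (h1 k).2.1, hf k⟩, ?_, ?_⟩
      · intro v hv hvz k
        rcases hno v hv hvz.symm with hvx | hvx
        · subst hvx
          simp only [if_true]
          exact ⟨(h1 k).2.2.1, hA1 _ _ k, hb1 k, hb2 k⟩
        · subst hvx
          simp only [if_neg hyx]
          exact ⟨(h1 k).2.2.2, hB1 _ _ k, hb3 k, hb4 k⟩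
      · intro k
        have h6 : h z (σ.ext z (f (σ.b x y) (σ.b y x))
            (N' (σ.b x y) (σ.b y x) (σ.c x) (σ.N x) (σ.c y) (σ.N y))
            (fun v => if v = x then A' (σ.b x y) (σ.b y x) (σ.N x) (σ.c y)
              else B' (σ.b x y) (σ.b y x) (σ.c x) (σ.N y))
            (fun v => if v = x then σ.b x y else σ.b y x)) k =
            h z ⟨fun v => if v = z then f (σ.b x y) (σ.b y x) else if v = x then σ.c x else σ.c y,
              fun _ => N' (σ.b x y) (σ.b y x) (σ.c x) (σ.N x) (σ.c y) (σ.N y),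
              fun u v => if u = z then (if v = x then A' (σ.b x y) (σ.b y x) (σ.N x) (σ.c y)
                else B' (σ.b x y) (σ.b y x) (σ.c x) (σ.N y)) else
                if u = x then σ.b x y else σ.b y x⟩ k := by
          apply hl z (mem_insert_self z A)
          · refine ⟨by simp only [St.ext, if_true], ?_⟩
            intro u hu hzu
            rcases mem_insert.1 hu with hu | hu
            · exact absurd hu (hzu.ne')
            · rcases hno u hu hzu with hux | hux
              · subst hux
                simp only [St.ext, if_true, if_neg (hne u hu)]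
                exact ⟨trivial, trivial, trivial⟩
              · subst hux
                simp only [St.ext, if_true, if_neg (hne u hu), if_neg hyx]
                exact ⟨trivial, trivial, trivial⟩
          · intro j _
            simp only [St.ext, if_true]
        rw [h6]
        exact h5 k

end Pool.Agent.Lib.MP_994fee_co.TwB
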