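import Mathlib

/-!
# Selection of candidates, box version (row S)
-/

namespace Pool.Agent.Lib.MP_994fee_co.TwB.Sel24

theorem card_fix_mul {ι A : Type} [Fintype ι] [DecidableEq ι] [Fintype A] [DecidableEq A]
    (J : Finset ι) (v : ι → A) :
    (Fintype.piFinset (fun i => if i ∈ J then ({v i} : Finset A) else Finset.univ)).card
      * Fintype.card A ^ J.card = Fintype.card A ^ Fintype.card ι := by
  have h1 : Fintype.card A ^ J.card = ∏ i : ι, (if i ∈ J then Fintype.card A else 1) := by
    rw [Finset.prod_ite_mem, Finset.univ_inter, Finset.prod_const]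
  rw [Fintype.card_piFinset, h1, ← Finset.prod_mul_distrib]
  have h2 : ∀ i : ι, (if i ∈ J then ({v i} : Finset A) else Finset.univ).card
      * (if i ∈ J then Fintype.card A else 1) = Fintype.card A := by
    intro i
    split_ifs
    · simp
    · simp
  rw [Finset.prod_congr rfl (fun i _ => h2 i), Finset.prod_const, Finset.card_univ]

/-- For each pair `(τ, c)` a sparse relation; candidates can be chosen such that no relation has
`r` entries in general position among the candidates. -/
theorem exists_selB {S T I : Type} [Fintype S] [Fintype T] [Fintype I] (K D a r : ℕ)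
    (hS : Fintype.card S ≤ K) (hT : Fintype.card T ≤ K)
    (hK : K ^ 2 * a ^ (2 * r) * D ^ r < Fintype.card I ^ (2 * r))
    (Bad : T → S → I → I → Prop)
    (hBad : ∀ τ c, ∀ F : Finset (I × I), (∀ p ∈ F, Bad τ c p.1 p.2) → F.card ≤ D) :
    ∃ (x : S → Fin a → I) (y : T → Fin a → I), ∀ τ c, ¬ ∃ k l : Fin r → Fin a,
      Function.Injective k ∧ Function.Injective l ∧ ∀ t, Bad τ c (x c (k t)) (y τ (l t)) := by
  classical
  rcases Nat.eq_zero_or_pos r with hr | hr
  · subst hr
    have hK0 : K = 0 := by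
      by_contra h0
      have h1 : 0 < K ^ 2 := Nat.pow_pos (Nat.pos_of_ne_zero h0)
      simp at hK
      exact h0 hK
    have : IsEmpty S := Fintype.card_eq_zero_iff.1 (by omega)
    have : IsEmpty T := Fintype.card_eq_zero_iff.1 (by omega)
    exact ⟨fun c => isEmptyElim c, fun τ => isEmptyElim τ, fun τ => isEmptyElim τ⟩
  have hN0 : 0 < Fintype.card I := by
    by_contra h0
    have h1 : Fintype.card I = 0 := by omega
    rw [h1, zero_pow (by omega)] at hK
    exact absurd hK (Nat.not_lt_zero _)
  set N := Fintype.card I with hN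
  let Ix := (S × Fin a) ⊕ (T × Fin a)
  let BS : T → S → Finset (I × I) := fun τ c => Finset.univ.filter (fun p => Bad τ c p.1 p.2)
  have hBS : ∀ τ c, (BS τ c).card ≤ D := by
    intro τ c
    refine hBad τ c _ ?_
    intro p hp
    exact (Finset.mem_filter.1 hp).2
  let Kk := Fin r → Fin a
  let J : T × S × Kk × Kk → Finset Ix := fun q =>
    (Finset.univ.image (fun t => (Sum.inl (q.2.1, q.2.2.1 t) : Ix))) ∪
    (Finset.univ.image (fun t => (Sum.inr (q.1, q.2.2.2 t) : Ix)))
  have hJ : ∀ q : T × S × Kk × Kk, Function.Injective q.2.2.1 → Function.Injective q.2.2.2 →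
      (J q).card = 2 * r := by
    intro q h1 h2
    rw [Finset.card_union_of_disjoint, Finset.card_image_of_injective, Finset.card_image_of_injective]
    · simp
      omega
    · intro t t' h
      have h3 := Sum.inr.inj h
      exact h2 (Prod.mk.inj h3).2
    · intro t t' h
      have h3 := Sum.inl.inj h
      exact h1 (Prod.mk.inj h3).2
    · rw [Finset.disjoint_left]
      intro z hz hz2
      obtain ⟨t, _, rfl⟩ := Finset.mem_image.1 hz
      obtain ⟨t', _, h⟩ := Finset.mem_image.1 hz2
      exact absurd h (by simp)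
  let Z : T × S × Kk × Kk → (Fin r → I × I) → Finset (Ix → I) := fun q e =>
    Finset.univ.filter (fun z => ∀ t, z (Sum.inl (q.2.1, q.2.2.1 t)) = (e t).1 ∧
      z (Sum.inr (q.1, q.2.2.2 t)) = (e t).2)
  have hZ : ∀ q : T × S × Kk × Kk, ∀ e, Function.Injective q.2.2.1 → Function.Injective q.2.2.2 →
      (Z q e).card * N ^ (2 * r) ≤ N ^ Fintype.card Ix := by
    intro q e h1 h2
    rcases (Z q e).eq_empty_or_nonempty with h0 | ⟨z0, hz0⟩
    · rw [h0]
      simp
    · have h3 : Z q e ⊆ Fintype.piFinset (fun i => if i ∈ J q then ({z0 i} : Finset I)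
          else Finset.univ) := by
        intro z hz
        rw [Fintype.mem_piFinset]
        intro i
        split_ifs with hi
        · rw [Finset.mem_singleton]
          have hz1 := (Finset.mem_filter.1 hz).2
          have hz2 := (Finset.mem_filter.1 hz0).2
          rcases Finset.mem_union.1 hi with hi | hi
          · obtain ⟨t, _, rfl⟩ := Finset.mem_image.1 hi
            rw [(hz1 t).1, (hz2 t).1]
          · obtain ⟨t, _, rfl⟩ := Finset.mem_image.1 hi
            rw [(hz1 t).2, (hz2 t).2]
        · exact Finset.mem_univ _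
      have h4 := card_fix_mul (J q) z0
      rw [hJ q h1 h2, ← hN] at h4
      rw [← h4]
      exact Nat.mul_le_mul_right _ (Finset.card_le_card h3)
  let W : Finset (Ix → I) := Finset.univ.biUnion (fun q : T × S × Kk × Kk =>
    (Fintype.piFinset (fun _ : Fin r => BS q.1 q.2.1)).biUnion (fun e =>
      if Function.Injective q.2.2.1 ∧ Function.Injective q.2.2.2 then Z q e else ∅))
  have hW : W.card * N ^ (2 * r) < N ^ Fintype.card Ix * N ^ (2 * r) := by
    have h1 : W.card * N ^ (2 * r) ≤ ∑ q : T × S × Kk × Kk,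
        ∑ e ∈ Fintype.piFinset (fun _ : Fin r => BS q.1 q.2.1), N ^ Fintype.card Ix := by
      calc W.card * N ^ (2 * r) ≤ (∑ q : T × S × Kk × Kk,
            ∑ e ∈ Fintype.piFinset (fun _ : Fin r => BS q.1 q.2.1),
              (if Function.Injective q.2.2.1 ∧ Function.Injective q.2.2.2 then Z q e
                else ∅).card) * N ^ (2 * r) := by
            refine Nat.mul_le_mul_right _ ?_
            refine le_trans Finset.card_biUnion_le ?_
            exact Finset.sum_le_sum (fun q _ => Finset.card_biUnion_le)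
        _ ≤ _ := by
            rw [Finset.sum_mul]
            refine Finset.sum_le_sum (fun q _ => ?_)
            rw [Finset.sum_mul]
            refine Finset.sum_le_sum (fun e _ => ?_)
            split_ifs with h
            · exact hZ q e h.1 h.2
            · simp
    have h2 : (∑ q : T × S × Kk × Kk,
        ∑ e ∈ Fintype.piFinset (fun _ : Fin r => BS q.1 q.2.1), N ^ Fintype.card Ix) ≤
        (K * (K * (a ^ r * a ^ r))) * (D ^ r * N ^ Fintype.card Ix) := by
      calc _ ≤ ∑ _q : T × S × Kk × Kk, D ^ r * N ^ Fintype.card Ix := by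
            refine Finset.sum_le_sum (fun q _ => ?_)
            rw [Finset.sum_const, smul_eq_mul]
            refine Nat.mul_le_mul_right _ ?_
            rw [Fintype.card_piFinset]
            simp only [Finset.prod_const, Finset.card_univ, Fintype.card_fin]
            exact Nat.pow_le_pow_left (hBS _ _) r
        _ ≤ _ := by
            rw [Finset.sum_const, smul_eq_mul, Finset.card_univ]
            refine Nat.mul_le_mul_right _ ?_
            simp only [Fintype.card_prod, Kk, Fintype.card_fun, Fintype.card_fin]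
            exact Nat.mul_le_mul hT (Nat.mul_le_mul_right _ hS)
    refine lt_of_le_of_lt (le_trans h1 h2) ?_
    have h3 : (K * (K * (a ^ r * a ^ r))) * (D ^ r * N ^ Fintype.card Ix)
        = N ^ Fintype.card Ix * (K ^ 2 * a ^ (2 * r) * D ^ r) := by
      rw [two_mul r, pow_add]
      ring
    rw [h3]
    exact Nat.mul_lt_mul_of_pos_left hK (Nat.pow_pos hN0)
  have hW2 : W.card < Fintype.card (Ix → I) := by
    rw [Fintype.card_fun, ← hN]
    exact Nat.lt_of_mul_lt_mul_right hW
  obtain ⟨z, hz⟩ : ∃ z, z ∉ W := by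
    by_contra hcon
    push Not at hcon
    have h5 : W = Finset.univ := Finset.eq_univ_iff_forall.2 hcon
    rw [h5, Finset.card_univ] at hW2
    exact lt_irrefl _ hW2
  refine ⟨fun c k => z (Sum.inl (c, k)), fun τ l => z (Sum.inr (τ, l)), ?_⟩
  rintro τ c ⟨k, l, hk, hl, h⟩
  apply hz
  refine Finset.mem_biUnion.2 ⟨(τ, c, k, l), Finset.mem_univ _, ?_⟩
  refine Finset.mem_biUnion.2 ⟨fun t => (z (Sum.inl (c, k t)), z (Sum.inr (τ, l t))), ?_, ?_⟩
  · rw [Fintype.mem_piFinset]
    intro t
    exact Finset.mem_filter.2 ⟨Finset.mem_univ _, h t⟩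
  · rw [if_pos ⟨hk, hl⟩]
    exact Finset.mem_filter.2 ⟨Finset.mem_univ _, fun t => ⟨rfl, rfl⟩⟩

/-- Without `r` entries in general position few rows and columns cover a relation. -/
theorem exists_dropB {α β : Type} [DecidableEq α] [DecidableEq β] (r : ℕ) (E : α → β → Prop)
    (h : ¬ ∃ (k : Fin r → α) (l : Fin r → β), Function.Injective k ∧ Function.Injective l ∧
      ∀ t, E (k t) (l t)) :
    ∃ (R : Finset α) (C : Finset β), R.card ≤ r ∧ C.card ≤ r ∧ ∀ x y, E x y → x ∈ R ∨ y ∈ C := by
  by_contra hcon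
  push Not at hcon
  apply h
  have key : ∀ n : ℕ, n ≤ r → ∃ (k : Fin n → α) (l : Fin n → β), Function.Injective k ∧
      Function.Injective l ∧ ∀ t, E (k t) (l t) := by
    intro n
    induction n with
    | zero => exact fun _ => ⟨Fin.elim0, Fin.elim0, fun i => i.elim0, fun i => i.elim0,
        fun i => i.elim0⟩
    | succ n ih =>
      intro hn
      obtain ⟨k, l, hk, hl, hE⟩ := ih (by omega)
      obtain ⟨x, y, hxy, hx, hy⟩ := hcon (Finset.univ.image k) (Finset.univ.image l)
        (le_trans Finset.card_image_le (by simp; omega))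
        (le_trans Finset.card_image_le (by simp; omega))
      have hx1 : ∀ i, k i ≠ x := fun i hi => hx (Finset.mem_image.2 ⟨i, Finset.mem_univ _, hi⟩)
      have hy1 : ∀ i, l i ≠ y := fun i hi => hy (Finset.mem_image.2 ⟨i, Finset.mem_univ _, hi⟩)
      refine ⟨Fin.cons x k, Fin.cons y l, ?_, ?_, ?_⟩
      · rw [Fin.cons_injective_iff]
        refine ⟨?_, hk⟩
        rintro ⟨i, hi⟩
        exact hx1 i hi
      · rw [Fin.cons_injective_iff]
        refine ⟨?_, hl⟩
        rintro ⟨i, hi⟩
        exact hy1 i hi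
      · intro t
        refine Fin.cases ?_ (fun i => ?_) t
        · simpa using hxy
        · simpa using hE i
  exact key r le_rfl

end Pool.Agent.Lib.MP_994fee_co.TwB.Sel24

namespace Pool.Agent.Lib.MP_994fee_co.TwB

/-- ROW S -/
theorem exists_choiceB {S T I : Type} [Fintype S] [Fintype T] [Fintype I] (K D m r : ℕ)
    (hS : Fintype.card S ≤ K) (hT : Fintype.card T ≤ K)
    (hK : K ^ 2 * (m * r + 1) ^ (2 * r) * D ^ r < Fintype.card I ^ (2 * r))
    (Bad : T → S → I → I → Prop)
    (hBad : ∀ τ c, ∀ F : Finset (I × I), (∀ p ∈ F, Bad τ c p.1 p.2) → F.card ≤ D) :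
    ∃ (X : Finset T → S → I) (Y : T → Finset S → I),
      ∀ (P : Finset T) (Q : Finset S), P.card ≤ m → Q.card ≤ m → ∀ τ ∈ P, ∀ c ∈ Q,
        ¬ Bad τ c (X P c) (Y τ Q) := by
  classical
  obtain ⟨x, y, hxy⟩ := Sel24.exists_selB K D (m * r + 1) r hS hT hK Bad hBad
  have h1 : ∀ τ c, ∃ (R C : Finset (Fin (m * r + 1))), R.card ≤ r ∧ C.card ≤ r ∧
      ∀ k l, Bad τ c (x c k) (y τ l) → k ∈ R ∨ l ∈ C := fun τ c =>
    Sel24.exists_dropB r (fun k l => Bad τ c (x c k) (y τ l)) (hxy τ c)
  choose R C hR hC hRC using h1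
  have hX : ∀ (P : Finset T) (c : S), ∃ k : Fin (m * r + 1), P.card ≤ m → ∀ τ ∈ P,
      k ∉ R τ c := by
    intro P c
    by_cases hP : P.card ≤ m
    · have h2 : (P.biUnion (fun τ => R τ c)).card < Fintype.card (Fin (m * r + 1)) := by
        rw [Fintype.card_fin]
        calc _ ≤ ∑ τ ∈ P, (R τ c).card := Finset.card_biUnion_le
          _ ≤ ∑ _τ ∈ P, r := Finset.sum_le_sum (fun τ _ => hR τ c)
          _ = P.card * r := by rw [Finset.sum_const, smul_eq_mul]
          _ ≤ m * r := Nat.mul_le_mul_right _ hP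
          _ < m * r + 1 := Nat.lt_succ_self _
      obtain ⟨k, hk⟩ : ∃ k, k ∉ P.biUnion (fun τ => R τ c) := by
        by_contra hcon
        push Not at hcon
        rw [Finset.eq_univ_iff_forall.2 hcon, Finset.card_univ] at h2
        exact lt_irrefl _ h2
      refine ⟨k, fun _ τ hτ hk2 => hk ?_⟩
      exact Finset.mem_biUnion.2 ⟨τ, hτ, hk2⟩
    · exact ⟨0, fun h => absurd h hP⟩
  have hY : ∀ (τ : T) (Q : Finset S), ∃ k : Fin (m * r + 1), Q.card ≤ m → ∀ c ∈ Q,
      k ∉ C τ c := by
    intro τ Q
    by_cases hQ : Q.card ≤ m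
    · have h2 : (Q.biUnion (fun c => C τ c)).card < Fintype.card (Fin (m * r + 1)) := by
        rw [Fintype.card_fin]
        calc _ ≤ ∑ c ∈ Q, (C τ c).card := Finset.card_biUnion_le
          _ ≤ ∑ _c ∈ Q, r := Finset.sum_le_sum (fun c _ => hC τ c)
          _ = Q.card * r := by rw [Finset.sum_const, smul_eq_mul]
          _ ≤ m * r := Nat.mul_le_mul_right _ hQ
          _ < m * r + 1 := Nat.lt_succ_self _
      obtain ⟨k, hk⟩ : ∃ k, k ∉ Q.biUnion (fun c => C τ c) := by
        by_contra hcon
        push Not at hcon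
        rw [Finset.eq_univ_iff_forall.2 hcon, Finset.card_univ] at h2
        exact lt_irrefl _ h2
      refine ⟨k, fun _ c hc hk2 => hk ?_⟩
      exact Finset.mem_biUnion.2 ⟨c, hc, hk2⟩
    · exact ⟨0, fun h => absurd h hQ⟩
  choose kX hkX using hX
  choose kY hkY using hY
  refine ⟨fun P c => x c (kX P c), fun τ Q => y τ (kY τ Q), ?_⟩
  intro P Q hP hQ τ hτ c hc hbad
  rcases hRC τ c _ _ hbad with h | h
  · exact hkX P c hP τ hτ h
  · exact hkY τ Q hQ c hc h

end Pool.Agent.Lib.MP_994fee_co.TwB
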