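import Mathlib
import Pool.Agent.Lib.MP_994fee_co.Ramsey
import Pool.Agent.Lib.MP_994fee_co.TwB.Defs19

/-!
# Row R: a palette along which the guesses are invariant under separate shifts
-/

namespace Pool.Agent.Lib.MP_994fee_co.TwB

open Finset

/-- reading a tuple of length `m` at a natural number -/
def ev75 {m : ℕ} (u : Fin m → ℕ) (j : ℕ) : ℕ := if h : j < m then u ⟨j, h⟩ else 0

theorem div_lt75 {n R j : ℕ} (h : j < n * R) : j / R < n :=
  Nat.div_lt_of_lt_mul (by rw [Nat.mul_comm R n]; exact h)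

/-- the increasing tuple of shifted positions -/
def tup75 (n M : ℕ) (t : Fin n → ℕ) (j : Fin (n * (2 * M + 1))) : ℕ :=
  pos M (j / (2 * M + 1)) (j % (2 * M + 1) +
    t ⟨j / (2 * M + 1), div_lt75 j.2⟩)

theorem tup75_strictMono (n M : ℕ) (t : Fin n → ℕ) (ht : ∀ k, t k ≤ M + 1) :
    StrictMono (tup75 n M t) := by
  intro i j hij
  have hij' : (i : ℕ) < j := hij
  have hi := Nat.div_add_mod (i : ℕ) (2 * M + 1)
  have hj := Nat.div_add_mod (j : ℕ) (2 * M + 1)
  have hri := Nat.mod_lt (i : ℕ) (show 0 < 2 * M + 1 by omega)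
  have hrj := Nat.mod_lt (j : ℕ) (show 0 < 2 * M + 1 by omega)
  have hle : (i : ℕ) / (2 * M + 1) ≤ (j : ℕ) / (2 * M + 1) := Nat.div_le_div_right hij'.le
  rcases hle.lt_or_eq with hlt | heq
  · simp only [tup75, pos]
    have h1 := ht ⟨i / (2 * M + 1), div_lt75 i.2⟩
    have h2 : ((i : ℕ) / (2 * M + 1) + 1) * (4 * M + 4) ≤ (j : ℕ) / (2 * M + 1) * (4 * M + 4) :=
      Nat.mul_le_mul_right _ hlt
    rw [add_mul] at h2
    omega
  · simp only [tup75, pos]
    have h1 : (⟨i / (2 * M + 1), div_lt75 i.2⟩ : Fin n) =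
        ⟨j / (2 * M + 1), div_lt75 j.2⟩ :=
      Fin.ext heq
    rw [h1, heq]
    rw [heq] at hi
    omega

theorem ev75_tup (n M : ℕ) (p : ℕ → ℕ) (t : Fin n → ℕ) (k : Fin n) (r : ℕ)
    (hr : r < 2 * M + 1) :
    ev75 (p ∘ tup75 n M t) (k * (2 * M + 1) + r) = p (pos M k (r + t k)) := by
  have h0 : (k : ℕ) * (2 * M + 1) + r < n * (2 * M + 1) := by
    have h1 : ((k : ℕ) + 1) * (2 * M + 1) ≤ n * (2 * M + 1) := Nat.mul_le_mul_right _ k.2
    rw [add_mul] at h1
    omega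
  have hd : ((k : ℕ) * (2 * M + 1) + r) / (2 * M + 1) = k := by
    rw [mul_comm, Nat.mul_add_div (by omega), Nat.div_eq_of_lt hr, Nat.add_zero]
  have hm : ((k : ℕ) * (2 * M + 1) + r) % (2 * M + 1) = r := by
    rw [mul_comm, Nat.mul_add_mod, Nat.mod_eq_of_lt hr]
  unfold ev75
  rw [dif_pos h0]
  simp only [Function.comp, tup75]
  have h2 : (⟨((k : ℕ) * (2 * M + 1) + r) / (2 * M + 1),
      div_lt75 h0⟩ : Fin n) = k := Fin.ext hd
  rw [h2, hd, hm]

theorem image75 (n M : ℕ) (p : ℕ → ℕ) (t : Fin n → ℕ) (X : Fin n → Finset ℕ)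
    (hX : ∀ k, X k ⊆ range (2 * M + 1)) (k : Fin n) :
    (univ.filter (fun r : Fin (2 * M + 1) => (r : ℕ) ∈ X k)).image
      (fun r : Fin (2 * M + 1) => ev75 (p ∘ tup75 n M t) (k * (2 * M + 1) + (r : ℕ))) =
      (X k).image (fun r => p (pos M k (r + t k))) := by
  ext z
  simp only [mem_image, mem_filter, mem_univ, true_and]
  constructor
  · rintro ⟨r, hr, rfl⟩
    exact ⟨r, hr, (ev75_tup n M p t k r r.2).symm⟩
  · rintro ⟨r, hr, rfl⟩
    exact ⟨⟨r, mem_range.1 (hX k hr)⟩, hr, ev75_tup n M p t k r (mem_range.1 (hX k hr))⟩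

/-- ROW R, generalises exists_shift of TwG/Inf19 -/
theorem exists_shiftB {n M : ℕ} {Cd : Type} [Finite Cd]
    (κ : Cd → (Fin n → Finset ℕ) → (Fin n → Finset ℕ) → (Fin n → Finset ℕ) → (Fin n → ℕ) →
      Fin n → Finset ℕ) :
    ∃ p : ℕ → ℕ, StrictMono p ∧ ∀ (cd : Cd) (X Y Z : Fin n → Finset ℕ) (f t : Fin n → ℕ)
      (k : Fin n), (∀ k, X k ⊆ range (2 * M + 1)) → (∀ k, Y k ⊆ range (2 * M + 1)) →
      (∀ k, Z k ⊆ range (2 * M + 1)) → (∀ k, f k < 2 * M + 1) → (∀ k, t k ≤ M + 1) →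
      (p (pos M k (f k + t k)) ∈ κ cd (fun k => (X k).image (fun r => p (pos M k (r + t k))))
        (fun k => (Y k).image (fun r => p (pos M k (r + t k))))
        (fun k => (Z k).image (fun r => p (pos M k (r + t k))))
        (fun k => p (pos M k (f k + t k))) k ↔
      p (pos M k (f k)) ∈ κ cd (fun k => (X k).image (fun r => p (pos M k r)))
        (fun k => (Y k).image (fun r => p (pos M k r)))
        (fun k => (Z k).image (fun r => p (pos M k r))) (fun k => p (pos M k (f k))) k) := by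
  classical
  obtain ⟨p, hp, h⟩ := stRamsey
    (fun _ => Cd → (Fin n → Finset (Fin (2 * M + 1))) → (Fin n → Finset (Fin (2 * M + 1))) →
      (Fin n → Finset (Fin (2 * M + 1))) → (Fin n → Fin (2 * M + 1)) → Fin n → Prop)
    (fun _ => inferInstance)
    (fun m u cd X Y Z f k => ev75 u (k * (2 * M + 1) + (f k : ℕ)) ∈ κ cd
      (fun k => (X k).image (fun r : Fin (2 * M + 1) => ev75 u (k * (2 * M + 1) + (r : ℕ))))
      (fun k => (Y k).image (fun r : Fin (2 * M + 1) => ev75 u (k * (2 * M + 1) + (r : ℕ))))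
      (fun k => (Z k).image (fun r : Fin (2 * M + 1) => ev75 u (k * (2 * M + 1) + (r : ℕ))))
      (fun k => ev75 u (k * (2 * M + 1) + (f k : ℕ))) k) (n * (2 * M + 1))
  refine ⟨p, hp, ?_⟩
  intro cd X Y Z f t k hX hY hZ hf ht
  have h1 := h _ le_rfl (tup75 n M t) (tup75 n M fun _ => 0) (tup75_strictMono n M t ht)
    (tup75_strictMono n M _ fun _ => Nat.zero_le _)
  have h2 := congrFun (congrFun (congrFun (congrFun (congrFun (congrFun h1 cd)
    (fun k => univ.filter (fun r : Fin (2 * M + 1) => (r : ℕ) ∈ X k)))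
    (fun k => univ.filter (fun r : Fin (2 * M + 1) => (r : ℕ) ∈ Y k)))
    (fun k => univ.filter (fun r : Fin (2 * M + 1) => (r : ℕ) ∈ Z k)))
    (fun k => ⟨f k, hf k⟩)) k
  have eX := fun t => funext fun k => image75 n M p t X hX k
  have eY := fun t => funext fun k => image75 n M p t Y hY k
  have eZ := fun t => funext fun k => image75 n M p t Z hZ k
  have ef := fun t => funext fun k => ev75_tup n M p t k (f k) (hf k)
  have efk := fun t => ev75_tup n M p t k (f k) (hf k)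
  simp only [eX, eY, eZ, ef, efk] at h2
  exact iff_of_eq h2

end Pool.Agent.Lib.MP_994fee_co.TwB
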