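import Pool.Agent.Lib.MP_994fee_co.TwB.Par19
import Pool.Agent.Lib.MP_994fee_co.TwB.Count19
import Pool.Agent.Lib.MP_994fee_co.TwB.Sel24
import Pool.Agent.Lib.MP_994fee_co.TwB.Shift75

/-!
# The extension lemma for boxes, palette of all natural numbers
-/

namespace Pool.Agent.Lib.MP_994fee_co.TwB

open Finset

/-- boxes -/
abbrev Bx (n : ℕ) := Fin n → Finset ℕ

/-- The guesses of the `n` vertices of the new block. -/
abbrev KapB (n K : ℕ) := Fin K × Fin K → Bx n → Bx n → Bx n → (Fin n → ℕ) → Fin n → Finset ℕ

/-- The guesses are small and no vertex sees its own colour. -/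
def KOK {n K : ℕ} (s : ℕ) (κ : KapB n K) : Prop :=
  (∀ cd A B N f k, (κ cd A B N f k).card ≤ s) ∧
    ∀ cd A B N f f' k, (∀ j, j ≠ k → f j = f' j) → κ cd A B N f k = κ cd A B N f' k

/-- Solvability of the extension problem with the palette `Lp`. -/
def SolB (n L M K m : ℕ) (κ : KapB n K) (Lp : ℕ → Prop) : Prop :=
  ∃ (f : Fin n → ℕ) (A : Finset (Fin K) → Fin K → Bx n) (B : Fin K → Finset (Fin K) → Bx n)
    (N : Fin K → Finset (Fin K) → Fin K → Finset (Fin K) → Bx n), (∀ k, Lp (f k)) ∧
    (∀ P c k, (A P c k).card ≤ M ∧ ∀ z ∈ A P c k, Lp z) ∧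
    (∀ τ Q k, (B τ Q k).card ≤ M ∧ ∀ z ∈ B τ Q k, Lp z) ∧
    ∀ τ P c Q, τ ∈ P → c ∈ Q → P.card ≤ m → Q.card ≤ m →
      (∀ k, f k ∈ N τ P c Q k ∧ (N τ P c Q k).card = L ∧ N τ P c Q k ⊆ A P c k ∧
        N τ P c Q k ⊆ B τ Q k) ∧
        ∀ k, f k ∉ κ (τ, c) (A P c) (B τ Q) (N τ P c Q) f k

theorem core_infB (n s L M K D r : ℕ) (hL : n * s < L) (hK : K = M ^ n)
    (hpar : (M ^ n) ^ 2 * (L ^ n * r + 1) ^ (2 * r) * (D * (2 * M) ^ n) ^ r < (M ^ n) ^ (2 * r))
    (hD : ∀ F : Finset (Fin n → Fin M), ¬ HasBox L (fun x => x ∈ F) → F.card ≤ D)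
    (κ : KapB n K) (hκ : KOK s κ) :
    SolB n L M K (L ^ n) κ (fun _ => True) := by
  classical
  obtain ⟨p, hp, hsh⟩ := exists_shiftB (M := M) κ
  have hpos : ∀ k, StrictMono (fun x => p (pos M k x)) := by
    intro k x y hxy
    apply hp
    simp only [pos]
    omega
  let AI : Fin M → Finset ℕ := fun i => Ico (M - i) (2 * M - i)
  have hAIr : ∀ i, AI i ⊆ range (2 * M + 1) := by
    intro i x hx
    have := mem_Ico.1 hx
    exact mem_range.2 (by omega)
  let real : Bx n → Bx n := fun X k => (X k).image (fun x => p (pos M k x))
  let ctr : Fin n → ℕ := fun k => p (pos M k M)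
  let Bad : Fin K → Fin K → (Fin n → Fin M) → (Fin n → Fin M) → Prop := fun τ c i j =>
    ∀ N : Bx n, (∀ k, N k ⊆ AI (i k) ∧ N k ⊆ AI (j k) ∧ (N k).card = L ∧ M ∈ N k) →
      ∃ k, ctr k ∈ κ (τ, c) (real (fun k => AI (i k))) (real (fun k => AI (j k))) (real N) ctr k
  have hBad : ∀ τ c, ∀ F : Finset ((Fin n → Fin M) × (Fin n → Fin M)),
      (∀ q ∈ F, Bad τ c q.1 q.2) → F.card ≤ D * (2 * M) ^ n := by
    intro τ c F hF
    have h0 : (Fintype.piFinset (fun _ : Fin n => range (2 * M))).card = (2 * M) ^ n := by
      rw [Fintype.card_piFinset]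
      simp only [card_range, prod_const, card_univ, Fintype.card_fin]
    rw [← h0]
    refine Finset.card_le_mul_card_image_of_maps_to
      (f := fun q : (Fin n → Fin M) × (Fin n → Fin M) => fun k => (q.1 k : ℕ) + (M - (q.2 k : ℕ)))
      ?_ D ?_
    · intro q _
      rw [Fintype.mem_piFinset]
      intro k
      have h2 := (q.1 k).2
      exact mem_range.2 (by omega)
    · intro d _
      by_contra hcon
      push Not at hcon
      obtain ⟨F', hF'def⟩ : ∃ F' : Finset ((Fin n → Fin M) × (Fin n → Fin M)), F' = F.filter
        (fun q => (fun k => (q.1 k : ℕ) + (M - (q.2 k : ℕ))) = d) := ⟨_, rfl⟩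
      rw [← hF'def] at hcon
      have hd : ∀ q ∈ F', ∀ k, (q.1 k : ℕ) + (M - (q.2 k : ℕ)) = d k := by
        intro q hq k
        rw [hF'def] at hq
        exact congrFun (mem_filter.1 hq).2 k
      have hFF : ∀ q ∈ F', q ∈ F := by
        intro q hq
        rw [hF'def] at hq
        exact (mem_filter.1 hq).1
      have hinj : Set.InjOn (Prod.fst : (Fin n → Fin M) × (Fin n → Fin M) → _) (F' : Set _) := by
        intro q hq q' hq' hqq
        refine Prod.ext hqq ?_
        funext k
        have h1 := hd q (Finset.mem_coe.1 hq) k
        have h2 := hd q' (Finset.mem_coe.1 hq') k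
        have h3 := (q.2 k).2
        have h4 := (q'.2 k).2
        rw [hqq] at h1
        exact Fin.ext (by omega)
      have hcard : D < (F'.image Prod.fst).card := by
        rw [Finset.card_image_of_injOn hinj]
        exact hcon
      have hbox : HasBox L (fun x => x ∈ F'.image Prod.fst) := by
        by_contra hno
        exact absurd (hD _ hno) (by omega)
      obtain ⟨W, hW, hWF⟩ := hbox
      have hWne : ∀ k, (W k).Nonempty := by
        intro k
        rw [← Finset.card_pos, hW k]
        omega
      let i0 : Fin n → Fin M := fun k => (W k).max' (hWne k)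
      have hi0 : ∀ k, i0 k ∈ W k := fun k => Finset.max'_mem _ _
      have hmax : ∀ k, ∀ x ∈ W k, x ≤ i0 k := fun k x hx => Finset.le_max' _ _ hx
      obtain ⟨⟨i0', j0⟩, h0F, h0eq⟩ := mem_image.1 (hWF i0 hi0)
      simp only at h0eq
      subst h0eq
      let Ns : Bx n := fun k => (W k).image (fun x : Fin M => M - (i0 k : ℕ) + (x : ℕ))
      -- some coordinate hits, for every vector of the box
      have hhit : ∀ x : Fin n → Fin M, (∀ k, x k ∈ W k) →
          ∃ k, p (pos M k (M - (i0 k : ℕ) + (x k : ℕ))) ∈
            κ (τ, c) (real (fun k => AI (i0 k))) (real (fun k => AI (j0 k))) (real Ns)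
              (fun k => p (pos M k (M - (i0 k : ℕ) + (x k : ℕ)))) k := by
        intro x hx
        obtain ⟨⟨x', jx⟩, hxF, hxeq⟩ := mem_image.1 (hWF x hx)
        simp only at hxeq
        subst hxeq
        have hb := hF _ (hFF _ hxF)
        have hlex : ∀ k, (x' k : ℕ) ≤ i0 k := fun k => hmax k _ (hx k)
        have hdx : ∀ k, (x' k : ℕ) + (M - (jx k : ℕ)) = d k := fun k => hd _ hxF k
        have hd0 : ∀ k, (i0 k : ℕ) + (M - (j0 k : ℕ)) = d k := fun k => hd _ h0F k
        have hlt : ∀ k, (i0 k : ℕ) < M := fun k => (i0 k).2
        have hltj : ∀ k, (j0 k : ℕ) < M := fun k => (j0 k).2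
        have hltjx : ∀ k, (jx k : ℕ) < M := fun k => (jx k).2
        let t : Fin n → ℕ := fun k => (i0 k : ℕ) - (x' k : ℕ)
        have hA : ∀ k, (AI (i0 k)).image (fun y => y + t k) = AI (x' k) := by
          intro k
          have e1 := hlex k
          have e2 := hlt k
          ext y
          simp only [AI, mem_image, mem_Ico, t]
          constructor
          · rintro ⟨z, hz, rfl⟩
            omega
          · intro hy
            exact ⟨y - ((i0 k : ℕ) - (x' k : ℕ)), by omega, by omega⟩
        have hB : ∀ k, (AI (j0 k)).image (fun y => y + t k) = AI (jx k) := by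
          intro k
          have e1 := hlex k
          have e2 := hlt k
          have e3 := hdx k
          have e4 := hd0 k
          have e5 := hltj k
          have e6 := hltjx k
          ext y
          simp only [AI, mem_image, mem_Ico, t]
          constructor
          · rintro ⟨z, hz, rfl⟩
            omega
          · intro hy
            exact ⟨y - ((i0 k : ℕ) - (x' k : ℕ)), by omega, by omega⟩
        obtain ⟨k, hk⟩ := hb (fun k => (Ns k).image (fun y => y + t k)) (by
          intro k
          refine ⟨?_, ?_, ?_, ?_⟩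
          · rw [← hA k]
            apply Finset.image_subset_image
            intro y hy
            obtain ⟨w, hw, rfl⟩ := mem_image.1 hy
            have e1 : (w : ℕ) ≤ i0 k := hmax k w hw
            have e2 := hlt k
            simp only [AI, mem_Ico]
            omega
          · rw [← hB k]
            apply Finset.image_subset_image
            intro y hy
            obtain ⟨w, hw, rfl⟩ := mem_image.1 hy
            have e1 : (w : ℕ) ≤ i0 k := hmax k w hw
            have e2 := hlt k
            have e4 := hd0 k
            have e5 := hltj k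
            obtain ⟨⟨w', jw⟩, hwF, hweq⟩ := mem_image.1 (hWF (Function.update i0 k w) (by
              intro k'
              by_cases hkk : k' = k
              · subst hkk
                rw [Function.update_self]
                exact hw
              · rw [Function.update_of_ne hkk]
                exact hi0 k'))
            have e6 := hd _ hwF k
            simp only at hweq e6
            rw [hweq, Function.update_self] at e6
            have e7 := (jw k).2
            simp only [AI, mem_Ico]
            omega
          · rw [Finset.card_image_of_injective _ (add_left_injective (t k))]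
            simp only [Ns]
            rw [Finset.card_image_of_injective, hW k]
            intro y y' hyy
            simp only at hyy
            exact Fin.ext (by omega)
          · refine mem_image.2 ⟨M - (i0 k : ℕ) + (x' k : ℕ), ?_, ?_⟩
            · exact mem_image.2 ⟨x' k, hx k, rfl⟩
            · have e1 := hlex k
              have e2 := hlt k
              simp only [t]
              omega)
        refine ⟨k, ?_⟩
        have h5 := (hsh (τ, c) (fun k => AI (i0 k)) (fun k => AI (j0 k)) Ns
          (fun k => M - (i0 k : ℕ) + (x' k : ℕ)) t k (fun k => hAIr _) (fun k => hAIr _)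
          (by
            intro k y hy
            obtain ⟨w, hw, rfl⟩ := mem_image.1 hy
            have e1 : (w : ℕ) ≤ i0 k := hmax k w hw
            have e2 := hlt k
            exact mem_range.2 (by omega))
          (by
            intro k
            have e1 := hlex k
            have e2 := hlt k
            omega)
          (by
            intro k
            have e2 := hlt k
            simp only [t]
            omega)).1
        apply h5
        have himg : ∀ (X : Bx n) (k : Fin n), ((X k).image (fun y => y + t k)).image
            (fun y => p (pos M k y)) = (X k).image (fun y => p (pos M k (y + t k))) := by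
          intro X k
          rw [Finset.image_image]
          rfl
        have g1 : (fun k => (AI (i0 k)).image (fun y => p (pos M k (y + t k)))) =
            real (fun k => AI (x' k)) := by
          funext k
          rw [← himg (fun k => AI (i0 k)) k, hA k]
        have g2 : (fun k => (AI (j0 k)).image (fun y => p (pos M k (y + t k)))) =
            real (fun k => AI (jx k)) := by
          funext k
          rw [← himg (fun k => AI (j0 k)) k, hB k]
        have g3 : (fun k => (Ns k).image (fun y => p (pos M k (y + t k)))) =
            real (fun k => (Ns k).image (fun y => y + t k)) := by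
          funext k
          rw [← himg Ns k]
        have g4 : (fun k : Fin n => p (pos M k (M - (i0 k : ℕ) + (x' k : ℕ) + t k))) = ctr := by
          funext k
          have e1 := hlex k
          have e2 := hlt k
          have e3 : M - (i0 k : ℕ) + (x' k : ℕ) + t k = M := by
            simp only [t]
            omega
          rw [e3]
        rw [g1, g2, g3, g4, congrFun g4 k]
        exact hk
      obtain ⟨x, hx, hxn⟩ := box_count W L s hW hL
        (fun x k => univ.filter (fun w : Fin M => p (pos M k (M - (i0 k : ℕ) + (w : ℕ))) ∈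
          κ (τ, c) (real (fun k => AI (i0 k))) (real (fun k => AI (j0 k))) (real Ns)
              (fun k => p (pos M k (M - (i0 k : ℕ) + (x k : ℕ)))) k))
        (by
          intro x k
          refine le_trans ?_ (hκ.1 (τ, c) (real (fun k => AI (i0 k))) (real (fun k => AI (j0 k)))
            (real Ns) (fun k => p (pos M k (M - (i0 k : ℕ) + (x k : ℕ)))) k)
          refine Finset.card_le_card_of_injOn
            (fun w : Fin M => p (pos M k (M - (i0 k : ℕ) + (w : ℕ)))) ?_ ?_
          · intro w hw
            exact (mem_filter.1 (Finset.mem_coe.1 hw)).2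
          · intro w _ w' _ hww
            have := (hpos k).injective hww
            exact Fin.ext (by omega))
        (by
          intro x x' k hxx
          have : κ (τ, c) (real (fun k => AI (i0 k))) (real (fun k => AI (j0 k))) (real Ns)
              (fun k => p (pos M k (M - (i0 k : ℕ) + (x k : ℕ)))) k =
            κ (τ, c) (real (fun k => AI (i0 k))) (real (fun k => AI (j0 k))) (real Ns)
              (fun k => p (pos M k (M - (i0 k : ℕ) + (x' k : ℕ)))) k := by
            apply hκ.2
            intro j hj
            rw [hxx j hj]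
          simp only [this])
      obtain ⟨k, hk⟩ := hhit x hx
      exact hxn k (mem_filter.2 ⟨mem_univ _, hk⟩)
  obtain ⟨X, Y, hXY⟩ := exists_choiceB (S := Fin K) (T := Fin K) (I := Fin n → Fin M) (M ^ n)
    (D * (2 * M) ^ n) (L ^ n) r
    (by rw [Fintype.card_fin, hK]) (by rw [Fintype.card_fin, hK])
    (by
      have : Fintype.card (Fin n → Fin M) = M ^ n := by
        rw [Fintype.card_fun, Fintype.card_fin, Fintype.card_fin]
      rw [this]
      exact hpar) Bad hBad
  have hN : ∀ (τ : Fin K) (P : Finset (Fin K)) (c : Fin K) (Q : Finset (Fin K)), ∃ N : Bx n,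
      τ ∈ P → c ∈ Q → P.card ≤ L ^ n → Q.card ≤ L ^ n →
      (∀ k, N k ⊆ AI (X P c k) ∧ N k ⊆ AI (Y τ Q k) ∧ (N k).card = L ∧ M ∈ N k) ∧
      ∀ k, ctr k ∉ κ (τ, c) (real (fun k => AI (X P c k))) (real (fun k => AI (Y τ Q k)))
        (real N) ctr k := by
    intro τ P c Q
    by_cases h : τ ∈ P ∧ c ∈ Q ∧ P.card ≤ L ^ n ∧ Q.card ≤ L ^ n
    · obtain ⟨h1, h2, h3, h4⟩ := h
      have h5 := hXY P Q h3 h4 τ h1 c h2
      simp only [Bad] at h5
      push Not at h5
      obtain ⟨N, h6, h7⟩ := h5
      exact ⟨N, fun _ _ _ _ => ⟨h6, h7⟩⟩
    · exact ⟨fun _ => ∅, fun h1 h2 h3 h4 => absurd ⟨h1, h2, h3, h4⟩ h⟩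
  choose N hN using hN
  refine ⟨ctr, fun P c => real (fun k => AI (X P c k)), fun τ Q => real (fun k => AI (Y τ Q k)),
    fun τ P c Q => real (N τ P c Q), fun _ => trivial, ?_, ?_, ?_⟩
  · intro P c k
    refine ⟨?_, fun _ _ => trivial⟩
    simp only [real]
    rw [Finset.card_image_of_injective _ (hpos k).injective]
    simp only [AI, Nat.card_Ico]
    omega
  · intro τ Q k
    refine ⟨?_, fun _ _ => trivial⟩
    simp only [real]
    rw [Finset.card_image_of_injective _ (hpos k).injective]
    simp only [AI, Nat.card_Ico]
    omega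
  · intro τ P c Q h1 h2 h3 h4
    obtain ⟨h5, h6⟩ := hN τ P c Q h1 h2 h3 h4
    refine ⟨fun k => ?_, h6⟩
    obtain ⟨h7, h8, h9, h10⟩ := h5 k
    refine ⟨mem_image_of_mem _ h10, ?_, Finset.image_subset_image h7, Finset.image_subset_image h8⟩
    simp only [real]
    rw [Finset.card_image_of_injective _ (hpos k).injective, h9]

end Pool.Agent.Lib.MP_994fee_co.TwB
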