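import Pool.Agent.Lib.MP_994fee_co.TwB.Dens75

/-!
# The parameters
-/

namespace Pool.Agent.Lib.MP_994fee_co.TwB

open Finset

theorem exists_par (n L : ℕ) : ∃ M D r : ℕ, L < M ∧
    (M ^ n) ^ 2 * (L ^ n * r + 1) ^ (2 * r) * (D * (2 * M) ^ n) ^ r < (M ^ n) ^ (2 * r) ∧
    ∀ F : Finset (Fin n → Fin M), ¬ HasBox L (fun x => x ∈ F) → F.card ≤ D := by
  obtain ⟨e, c, C, hc, h⟩ := box_density L n
  obtain ⟨r, hr⟩ : ∃ r, r = 2 * n * (e + 1) + 1 := ⟨_, rfl⟩
  obtain ⟨a, ha⟩ : ∃ a, a = L ^ n * r + 1 := ⟨_, rfl⟩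
  obtain ⟨Z, hZ⟩ : ∃ Z, Z = c ^ (2 * n) * a ^ (2 * r) * (2 ^ n * C) ^ r + 1 + L := ⟨_, rfl⟩
  obtain ⟨M, hM⟩ : ∃ M, M = c * Z ^ (e + 1) := ⟨_, rfl⟩
  have hZ0 : 0 < Z := by omega
  have hMZ : Z ≤ M := by
    rw [hM, pow_succ]
    calc Z = 1 * (1 * Z) := by ring
      _ ≤ c * (Z ^ e * Z) :=
        Nat.mul_le_mul hc (Nat.mul_le_mul_right _ (Nat.one_le_pow _ _ hZ0))
  have hMe : c * Z ^ e ≤ M := by
    rw [hM]
    exact Nat.mul_le_mul_left _ (Nat.pow_le_pow_right hZ0 (Nat.le_succ e))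
  refine ⟨M, C * M ^ n / Z, r, by omega, ?_, ?_⟩
  · rw [← ha]
    have h1 : (C * M ^ n / Z) * Z ≤ C * M ^ n := Nat.div_mul_le_self _ _
    have h2 : ((C * M ^ n / Z) * (2 * M) ^ n) ^ r * Z ^ r ≤ (2 ^ n * C) ^ r * M ^ (2 * n * r) := by
      calc ((C * M ^ n / Z) * (2 * M) ^ n) ^ r * Z ^ r
          = (((C * M ^ n / Z) * Z) * (2 * M) ^ n) ^ r := by
            rw [← mul_pow]
            ring
        _ ≤ ((C * M ^ n) * (2 * M) ^ n) ^ r :=
            Nat.pow_le_pow_left (Nat.mul_le_mul_right _ h1) r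
        _ = (2 ^ n * C) ^ r * M ^ (2 * n * r) := by
            rw [mul_pow 2 M n]
            have h5 : M ^ (2 * n * r) = (M ^ n * M ^ n) ^ r := by
              rw [← pow_add, ← pow_mul]
              congr 1
              ring
            rw [h5, ← mul_pow]
            ring
    have hMpos : 0 < M := by omega
    have h3 : M ^ (2 * n) = c ^ (2 * n) * Z ^ (2 * n * (e + 1)) := by
      rw [hM, mul_pow, ← pow_mul]
      congr 2
      ring
    have h4 : (M ^ n) ^ 2 * a ^ (2 * r) * ((C * M ^ n / Z) * (2 * M) ^ n) ^ r * Z ^ r <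
        (M ^ n) ^ (2 * r) * Z ^ r := by
      calc (M ^ n) ^ 2 * a ^ (2 * r) * ((C * M ^ n / Z) * (2 * M) ^ n) ^ r * Z ^ r
          = (M ^ n) ^ 2 * a ^ (2 * r) * (((C * M ^ n / Z) * (2 * M) ^ n) ^ r * Z ^ r) := by
            rw [mul_assoc]
        _ ≤ (M ^ n) ^ 2 * a ^ (2 * r) * ((2 ^ n * C) ^ r * M ^ (2 * n * r)) :=
            Nat.mul_le_mul_left _ h2
        _ = (c ^ (2 * n) * a ^ (2 * r) * (2 ^ n * C) ^ r) *
            (M ^ (2 * n * r) * Z ^ (2 * n * (e + 1))) := by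
            have h5 : (M ^ n) ^ 2 = c ^ (2 * n) * Z ^ (2 * n * (e + 1)) := by
              rw [← h3, ← pow_mul, mul_comm n 2]
            rw [h5]
            ring
        _ < Z * (M ^ (2 * n * r) * Z ^ (2 * n * (e + 1))) := by
            refine Nat.mul_lt_mul_of_pos_right (by omega) ?_
            exact Nat.mul_pos (Nat.pow_pos hMpos) (Nat.pow_pos hZ0)
        _ = (M ^ n) ^ (2 * r) * Z ^ r := by
            have h6 : (M ^ n) ^ (2 * r) = M ^ (2 * n * r) := by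
              rw [← pow_mul]
              congr 1
              ring
            rw [h6, hr, pow_succ Z (2 * n * (e + 1))]
            ring
    exact Nat.lt_of_mul_lt_mul_right h4
  · intro F hF
    exact (Nat.le_div_iff_mul_le hZ0).2 (h M Z hZ0 hMe F hF)

end Pool.Agent.Lib.MP_994fee_co.TwB
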